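import Pool.Agent.LYS.Bus

/-!
A complete scheme for the sides avoiding `t`, together with an admissible pair for the sides not
touched by the scheme, gives an admissible pair.
-/

namespace Pool.Agent.LYS

variable {V A : Type*} {tail head : A → V} {t : V}

/-- source sides of finite dicuts -/
structure Gd (tail head : A → V) (X : Set V) : Prop where
  closed : Closed tail head X
  fin : (cut tail head X).Finite
  ne : (cut tail head X).Nonempty

/-- The conclusion of Q1 for a class of source sides. -/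
def ConclOn (tail head : A → V) (T : Set V → Prop) (𝒞 : Set (Set A)) (F : Set A) : Prop :=
  (∀ C ∈ 𝒞, ∃ X : Set V, Gd tail head X ∧ T X ∧ C = cut tail head X) ∧
  (∀ C ∈ 𝒞, ∀ C' ∈ 𝒞, C ≠ C' → Disjoint C C') ∧
  F ⊆ ⋃₀ 𝒞 ∧
  (∀ C ∈ 𝒞, ∃ a : A, C ∩ F = {a}) ∧
  (∀ X : Set V, Gd tail head X → T X → (cut tail head X ∩ F).Nonempty)

/-- a ranking of the members, supersets first -/
theorem exists_rank [Countable V] (hroot : ∀ v, ∃ n, Steps tail head t v n) {S : Set (Set V)}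
    (hS : PScheme tail head t S) :
    ∃ r : S → ℕ, Function.Injective r ∧ ∀ P Q : S, P.1 ⊆ Q.1 → P ≠ Q → r Q < r P := by
  classical
  have hfin : ∀ P : S, {Q : S | P.1 ⊆ Q.1}.Finite := by
    intro P
    obtain ⟨v, hv⟩ := hS.ne P.1 P.2
    have h1 := finite_over hroot hS.closed hS.disj hS.root v
    apply Set.Finite.of_finite_image (f := Subtype.val) _ Subtype.val_injective.injOn
    apply h1.subset
    rintro _ ⟨Q, hQ, rfl⟩
    exact ⟨Q.2, hQ hv⟩
  have hcount : S.Countable := by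
    have h1 : S ⊆ ⋃ v, {P | P ∈ S ∧ v ∈ P} := by
      intro P hP
      obtain ⟨v, hv⟩ := hS.ne P hP
      exact Set.mem_iUnion.2 ⟨v, hP, hv⟩
    exact (Set.countable_iUnion fun v =>
      (finite_over hroot hS.closed hS.disj hS.root v).countable).mono h1
  have : Countable S := hcount.to_subtype
  obtain ⟨c, hc⟩ := exists_injective_nat S
  let up : S → Finset ℕ := fun P => (hfin P).toFinset.image c
  have hup : ∀ P Q : S, c Q ∈ up P ↔ P.1 ⊆ Q.1 := by
    intro P Q
    simp only [up, Finset.mem_image, Set.Finite.mem_toFinset, Set.mem_ofPred_eq]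
    constructor
    · rintro ⟨R, hR, hRQ⟩
      rw [← hc hRQ]; exact hR
    · intro h
      exact ⟨Q, h, rfl⟩
  refine ⟨fun P => ∑ i ∈ up P, 2 ^ i, ?_, ?_⟩
  · intro P Q h
    have h1 : up P = up Q := Finset.geomSum_injective (n := 2) le_rfl h
    have h2 : P.1 ⊆ Q.1 := by
      rw [← hup P Q, h1, hup]
    have h3 : Q.1 ⊆ P.1 := by
      rw [← hup Q P, ← h1, hup]
    exact Subtype.ext (subset_antisymm h2 h3)
  · intro P Q h hne
    apply Finset.sum_lt_sum_of_subset (i := c P)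
    · intro i hi
      simp only [up, Finset.mem_image, Set.Finite.mem_toFinset, Set.mem_ofPred_eq] at hi ⊢
      obtain ⟨R, hR, hRi⟩ := hi
      exact ⟨R, h.trans hR, hRi⟩
    · rw [hup]
    · rw [hup]
      intro h'
      exact hne (Subtype.ext (subset_antisymm h h'))
    · positivity
    · intros; positivity

/-- good sides around a member -/
structure Good (tail head : A → V) (t : V) (S : Set (Set V)) (P Z : Set V) : Prop where
  side : Side tail head t Z
  sub : P ⊆ Z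
  only : ∀ Q ∈ S, Touch tail head Q Z → P ⊆ Q
  touch : Touch tail head P Z

theorem avoid {S : Set (Set V)} (hS : PScheme tail head t S) {P : Set V} (hP : P ∈ S)
    {F : Set V} (hF : F.Finite) (hne : F.Nonempty) (hFP : ∀ x ∈ F, x ∉ P) :
    ∃ Z, Side tail head t Z ∧ P ⊆ Z ∧ (∀ Q ∈ S, Touch tail head Q Z → P ⊆ Q) ∧ ∀ x ∈ F, x ∉ Z := by
  induction F, hF using Set.Finite.induction_on with
  | empty => exact absurd hne Set.not_nonempty_empty
  | insert _ _ ih =>
    rename_i x F' _ _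
    obtain ⟨Z1, h1, h2, h3, h4, _⟩ := hS.near P hP x (hFP x (Set.mem_insert x F'))
    rcases F'.eq_empty_or_nonempty with rfl | hne'
    · refine ⟨Z1, h1, h2, h4, ?_⟩
      rintro y (rfl | hy)
      · exact h3
      · exact absurd hy (Set.notMem_empty y)
    · obtain ⟨Z2, k1, k2, k3, k4⟩ := ih hne' fun y hy => hFP y (Set.mem_insert_of_mem x hy)
      refine ⟨Z1 ∩ Z2, h1.inter k1, Set.subset_inter h2 k2, ?_, ?_⟩
      · intro Q hQ hQZ
        rcases hQZ.inter with h | h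
        · exact h4 Q hQ h
        · exact k3 Q hQ h
      · rintro y (rfl | hy)
        · exact fun h => h3 h.1
        · exact fun h => k4 y hy h.2

/-- the minimality property holds also for sides containing the base vertex -/
theorem PScheme.min' {S : Set (Set V)} (hS : PScheme tail head t S) {Y : Set V}
    (hYc : Closed tail head Y) (hYf : (cut tail head Y).Finite) {P : Set V} (hP : P ∈ S)
    (hPY : Touch tail head P Y)
    (hmin : ∀ Q ∈ S, Touch tail head Q Y → Q ⊆ P → Q = P) : P ⊆ Y := by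
  classical
  obtain ⟨a, ha1, ha2⟩ := hPY
  have hT := finite_touch hS.disj hYf
  -- a vertex of `R` outside of `P` for each `R` touching `Y` not contained in `P`
  let f : Set V → V := fun R => if h : ∃ y ∈ R, y ∉ P then h.choose else head a
  have hf : ∀ R, ¬ R ⊆ P → f R ∈ R ∧ f R ∉ P := by
    intro R hR
    have h : ∃ y ∈ R, y ∉ P := Set.not_subset.1 hR
    simp only [f, dif_pos h]
    exact h.choose_spec
  have hf' : ∀ R, f R ∉ P := by
    intro R
    by_cases hR : R ⊆ P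
    · have h : ¬ ∃ y ∈ R, y ∉ P := fun ⟨y, h1, h2⟩ => h2 (hR h1)
      simp only [f, dif_neg h]
      exact ha1.2
    · exact (hf R hR).2
  obtain ⟨Z, h1, h2, h3, h4⟩ := avoid hS hP ((Set.finite_singleton (head a)).union (hT.image f))
    ⟨head a, Or.inl rfl⟩ (by
      rintro x (rfl | ⟨R, _, rfl⟩)
      · exact ha1.2
      · exact hf' R)
  have hs : Side tail head t (Y ∩ Z) :=
    ⟨hYc.inter h1.closed, fun h => h1.root h.2, (hYf.union h1.fin).subset (cut_inter Y Z)⟩
  have haYZ : a ∈ cut tail head (Y ∩ Z) :=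
    ⟨⟨ha2.1, h2 ha1.1⟩, fun h => h4 _ (Or.inl rfl) h.2⟩
  obtain ⟨R, hR1, hR2, hR3, _⟩ := hS.exists_min hs ⟨P, hP, a, ha1, haYZ⟩
  rcases hR2.inter with h5 | h5
  · have hRP : R ⊆ P := by
      by_contra hcon
      exact h4 (f R) (Or.inr ⟨R, ⟨hR1, h5⟩, rfl⟩) (hR3 (hf R hcon).1).2
    rw [← hmin R hR1 h5 hRP]
    exact hR3.trans Set.inter_subset_left
  · exact (h3 R hR1 h5).trans (hR3.trans Set.inter_subset_left)

variable {𝒞 : Set (Set A)} {F : Set A}

/-- only finitely many outer cuts are relevant for a side -/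
theorem finite_relevant
    (hWC : ∀ X : Set V, X.Nonempty → Closed tail head X → cut tail head X = ∅ → X = Set.univ)
    (hUn : ∀ X Y, Gd tail head X → Gd tail head Y → X ∪ Y ≠ Set.univ)
    (hC : ∀ C ∈ 𝒞, ∃ X : Set V, Gd tail head X ∧ t ∈ X ∧ C = cut tail head X)
    (hCd : ∀ C ∈ 𝒞, ∀ C' ∈ 𝒞, C ≠ C' → Disjoint C C')
    {Z : Set V} (hZ : Side tail head t Z) :
    {C | C ∈ 𝒞 ∧ ∃ a ∈ C, tail a ∈ Z}.Finite := by
  classical
  rcases Z.eq_empty_or_nonempty with rfl | hZne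
  · have : {C | C ∈ 𝒞 ∧ ∃ a ∈ C, tail a ∈ (∅ : Set V)} = ∅ := by
      ext C; simp
    rw [this]; exact Set.finite_empty
  have hroot := fun v => exists_steps hWC t v
  choose! W hW1 hW2 hW3 using hC
  have hdisj : ∀ C ∈ 𝒞, ∀ C' ∈ 𝒞, ∀ a, a ∈ cut tail head (W C) → a ∈ cut tail head (W C') →
      C = C' := by
    intro C hC C' hC' a h h'
    by_contra hne
    rw [← hW3 C hC] at h
    rw [← hW3 C' hC'] at h'
    exact Set.disjoint_left.1 (hCd C hC C' hC' hne) h h'
  have hmiss : ∀ w, {C | C ∈ 𝒞 ∧ w ∉ W C}.Finite := by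
    intro w
    obtain ⟨n, hn⟩ := hroot w
    induction hn with
    | refl =>
      have : {C | C ∈ 𝒞 ∧ t ∉ W C} = ∅ := by
        ext C
        simp only [Set.mem_ofPred_eq, Set.mem_empty_iff_false, iff_false, not_and, not_not]
        exact fun h => hW2 C h
      rw [this]; exact Set.finite_empty
    | fwd a n h ih =>
      apply ih.subset
      rintro C ⟨h1, h2⟩
      exact ⟨h1, fun h3 => h2 ((hW1 C h1).closed a h3)⟩
    | bwd a n h ih =>
      have h2 : {C | C ∈ 𝒞 ∧ head a ∉ W C} ⊆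
          {C | C ∈ 𝒞 ∧ tail a ∉ W C} ∪ {C | C ∈ 𝒞 ∧ a ∈ cut tail head (W C)} := by
        rintro C ⟨h1, h2⟩
        by_cases h3 : tail a ∈ W C
        · exact Or.inr ⟨h1, h3, h2⟩
        · exact Or.inl ⟨h1, h3⟩
      refine (ih.union ?_).subset h2
      apply Set.Subsingleton.finite
      rintro C ⟨h3, h4⟩ C' ⟨h5, h6⟩
      exact hdisj C h3 C' h5 a h4 h6
  have hbad : (⋃ a ∈ cut tail head Z, {C | C ∈ 𝒞 ∧ tail a ∉ W C}).Finite :=
    hZ.fin.biUnion fun a _ => hmiss (tail a)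
  have hcutZ : {C | C ∈ 𝒞 ∧ ∃ a ∈ cut tail head Z, a ∈ C}.Finite := by
    have h2 : {C | C ∈ 𝒞 ∧ ∃ a ∈ cut tail head Z, a ∈ C} ⊆
        ⋃ a ∈ cut tail head Z, {C | C ∈ 𝒞 ∧ a ∈ cut tail head (W C)} := by
      rintro C ⟨h1, a, h2, h3⟩
      rw [hW3 C h1] at h3
      exact Set.mem_biUnion h2 ⟨h1, h3⟩
    refine (hZ.fin.biUnion fun a _ => ?_).subset h2
    apply Set.Subsingleton.finite
    rintro C ⟨h3, h4⟩ C' ⟨h5, h6⟩
    exact hdisj C h3 C' h5 a h4 h6
  apply (hbad.union hcutZ).subset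
  rintro C ⟨hC, a, haC, haZ⟩
  by_cases h : ∃ b ∈ cut tail head Z, tail b ∉ W C
  · obtain ⟨b, hb1, hb2⟩ := h
    exact Or.inl (Set.mem_biUnion hb1 ⟨hC, hb2⟩)
  push Not at h
  right
  refine ⟨hC, a, ?_, haC⟩
  have haC' : a ∈ cut tail head (W C) := by rw [← hW3 C hC]; exact haC
  -- `Z` is contained in `W C`
  have hsub : Z ⊆ W C := by
    by_contra hcon
    obtain ⟨z, hz1, hz2⟩ := Set.not_subset.1 hcon
    have hX1 : Closed tail head (Zᶜ ∪ W C) := by
      intro b hb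
      by_contra h1
      rw [Set.mem_union, not_or, Set.mem_compl_iff, not_not] at h1
      rcases hb with hb | hb
      · exact h1.2 (h b ⟨h1.1, hb⟩)
      · exact h1.2 ((hW1 C hC).closed b hb)
    have hX2 : cut tail head (Zᶜ ∪ W C) ⊆ cut tail head (W C) := by
      rintro b ⟨h1, h2⟩
      rw [Set.mem_union, not_or, Set.mem_compl_iff, not_not] at h2
      rcases h1 with h1 | h1
      · exact absurd (hZ.closed b h2.1) h1
      · exact ⟨h1, h2.2⟩
    have hX3 : z ∉ Zᶜ ∪ W C := fun h1 => h1.elim (fun h2 => h2 hz1) hz2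
    have hX4 : (cut tail head (Zᶜ ∪ W C)).Nonempty := by
      rw [Set.nonempty_iff_ne_empty]
      intro h1
      have := hWC _ ⟨t, Or.inl hZ.root⟩ hX1 h1
      rw [this] at hX3
      exact hX3 (Set.mem_univ z)
    have hZg : Gd tail head Z := ⟨hZ.closed, hZ.fin, cut_nonempty hroot hZ.closed hZne hZ.root⟩
    apply hUn _ _ ⟨hX1, (hW1 C hC).fin.subset hX2, hX4⟩ hZg
    apply Set.eq_univ_of_forall
    intro v
    by_cases hv : v ∈ Z
    · exact Or.inr hv
    · exact Or.inl (Or.inl hv)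
  exact ⟨haZ, fun h1 => haC'.2 (hsub h1)⟩

/-- disjoint good sides -/
theorem exists_U (hroot : ∀ v, ∃ n, Steps tail head t v n) {S : Set (Set V)}
    (hS : PScheme tail head t S) (r : S → ℕ) (hr : Function.Injective r)
    (hr' : ∀ P Q : S, P.1 ⊆ Q.1 → P ≠ Q → r Q < r P)
    (hC : ∀ C ∈ 𝒞, ∃ X : Set V, Gd tail head X ∧
      (∀ P ∈ S, ¬ Touch tail head P X) ∧ C = cut tail head X)
    (hrel : ∀ Z, Side tail head t Z → {C | C ∈ 𝒞 ∧ ∃ a ∈ C, tail a ∈ Z}.Finite) :
    ∃ U : S → Set V, (∀ P, Good tail head t S P.1 (U P)) ∧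
      (∀ P Q, P ≠ Q → ∀ a, a ∈ cut tail head (U P) → a ∉ cut tail head (U Q)) ∧
      ∀ P, ∀ C ∈ 𝒞, ∀ a ∈ C, a ∉ cut tail head (U P) := by
  classical
  have hex : ∀ (P : S) (prev : ∀ Q : S, r Q < r P → {Z // Good tail head t S Q.1 Z}),
      ∃ Z : {Z // Good tail head t S P.1 Z}, (∀ (Q : S) (h : r Q < r P), ∀ a,
        a ∈ cut tail head Z.1 → a ∉ cut tail head (prev Q h).1) ∧
        ∀ C ∈ 𝒞, ∀ a ∈ C, a ∉ cut tail head Z.1 := by
    intro P prev
    obtain ⟨e0, he0⟩ := cut_nonempty hroot (hS.closed P.1 P.2) (hS.ne P.1 P.2) (hS.root P.1 P.2)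
    obtain ⟨Z0, k1, k2, _, k4, _⟩ := hS.near P.1 P.2 (head e0) he0.2
    let D : Set A := (⋃ Q : {Q : S // r Q < r P}, cut tail head (prev Q.1 Q.2).1) ∪
      ⋃ C ∈ {C | C ∈ 𝒞 ∧ ∃ a ∈ C, tail a ∈ Z0}, C
    have hQfin : Finite {Q : S // r Q < r P} := by
      have : (r ⁻¹' Set.Iio (r P)).Finite := (Set.finite_Iio _).preimage hr.injOn
      exact this.to_subtype
    have hD : D.Finite := by
      have hQ1 : (⋃ Q : {Q : S // r Q < r P}, cut tail head (prev Q.1 Q.2).1).Finite :=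
        Set.finite_iUnion fun Q => (prev Q.1 Q.2).2.side.fin
      refine hQ1.union ?_
      refine (hrel Z0 k1).biUnion fun C hC' => ?_
      obtain ⟨X, hX1, _, rfl⟩ := hC C hC'.1
      exact hX1.fin
    have hF : ({head e0} ∪ (tail '' D) \ P.1).Finite :=
      (Set.finite_singleton _).union ((hD.image _).diff)
    obtain ⟨Z, h1, h2, h3, h4⟩ := avoid hS P.2 hF ⟨head e0, Or.inl rfl⟩ (by
      rintro x (rfl | hx)
      · exact he0.2
      · exact hx.2)
    have hgood : Good tail head t S P.1 (Z ∩ Z0) := by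
      refine ⟨h1.inter k1, Set.subset_inter h2 k2, ?_, e0, he0, ⟨h2 he0.1, k2 he0.1⟩,
        fun h => h4 _ (Or.inl rfl) h.1⟩
      intro Q hQ hQZ
      rcases hQZ.inter with h | h
      · exact h3 Q hQ h
      · exact k4 Q hQ h
    refine ⟨⟨Z ∩ Z0, hgood⟩, ?_, ?_⟩
    · intro Q h a haZ haQ
      have haZ' : a ∈ cut tail head (Z ∩ Z0) := haZ
      by_cases h5 : tail a ∈ P.1
      · by_cases h6 : head a ∈ P.1
        · exact haZ'.2 ⟨h2 h6, k2 h6⟩
        · have h7 : Q.1 ⊆ P.1 := (prev Q h).2.only P.1 P.2 ⟨a, ⟨h5, h6⟩, haQ⟩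
          have h8 : Q ≠ P := fun h' => by rw [h'] at h; exact lt_irrefl _ h
          have := hr' Q P h7 h8
          omega
      · exact h4 (tail a) (Or.inr ⟨⟨a, Or.inl (Set.mem_iUnion.2 ⟨⟨Q, h⟩, haQ⟩), rfl⟩, h5⟩) haZ'.1.1
    · intro C hC' a haC haZ
      have haZ' : a ∈ cut tail head (Z ∩ Z0) := haZ
      by_cases h5 : tail a ∈ P.1
      · obtain ⟨X, _, hX2, hX3⟩ := hC C hC'
        have haX : a ∈ cut tail head X := by rw [← hX3]; exact haC
        apply hX2 P.1 P.2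
        exact ⟨a, ⟨h5, fun h6 => haZ'.2 ⟨h2 h6, k2 h6⟩⟩, haX⟩
      · refine h4 (tail a) (Or.inr ⟨⟨a, Or.inr ?_, rfl⟩, h5⟩) haZ'.1.1
        exact Set.mem_biUnion (show C ∈ {C | C ∈ 𝒞 ∧ ∃ a ∈ C, tail a ∈ Z0} from
          ⟨hC', a, haC, haZ'.1.2⟩) haC
  let wf : WellFounded (fun Q P : S => r Q < r P) := (measure r).wf
  let G : ∀ P : S, {Z // Good tail head t S P.1 Z} :=
    wf.fix fun P prev => Classical.choose (hex P prev)
  have hG0 : ∀ P : S, G P = Classical.choose (hex P fun Q _ => G Q) := fun P => wf.fix_eq _ P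
  have hG : ∀ (P Q : S), r Q < r P → ∀ a, a ∈ cut tail head (G P).1 →
      a ∉ cut tail head (G Q).1 := by
    intro P Q h a
    rw [hG0 P]
    exact (Classical.choose_spec (hex P fun Q _ => G Q)).1 Q h a
  refine ⟨fun P => (G P).1, fun P => (G P).2, ?_, ?_⟩
  · intro P Q hne a haP haQ
    rcases lt_trichotomy (r P) (r Q) with h | h | h
    · exact hG Q P h a haQ haP
    · exact hne (hr h)
    · exact hG P Q h a haP haQ
  · intro P C hC' a haC
    show a ∉ cut tail head (G P).1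
    rw [hG0 P]
    exact (Classical.choose_spec (hex P fun Q _ => G Q)).2 C hC' a haC

/-- the finite step -/
theorem finite_step {S : Set (Set V)}
    (hS : PScheme tail head t S)
    (r : S → ℕ) (hr : Function.Injective r)
    (hr' : ∀ P Q : S, P.1 ⊆ Q.1 → P ≠ Q → r Q < r P)
    (U : S → Set V) (hU : ∀ P, Good tail head t S P.1 (U P))
    (hdisj : ∀ P Q, P ≠ Q → ∀ a, a ∈ cut tail head (U P) → a ∉ cut tail head (U Q))
    (hFU : ∀ P, ∀ a ∈ F, a ∉ cut tail head (U P))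
    (M : Set (Set V)) (hM : M.Finite)
    (hMs : ∀ Y ∈ M, Closed tail head Y ∧ (cut tail head Y).Finite)
    (hcomp : ∀ Y ∈ M, (∀ P ∈ S, ¬ Touch tail head P Y) → ∃ a ∈ F, a ∈ cut tail head Y)
    (hMu : ∀ X ∈ M, ∀ Y ∈ M, X ∪ Y ∈ M) (N : ℕ) (hMU : ∀ P, r P < N → U P ∈ M)
    (n : ℕ) (hn : n ≤ N) :
    ∃ e : S → A, (∀ P, e P ∈ cut tail head P.1 ∧ e P ∈ cut tail head (U P)) ∧
      ∀ Y ∈ M, (∀ P : S, Touch tail head P.1 Y → r P < n) →
        (∃ a ∈ F, a ∈ cut tail head Y) ∨ ∃ P, e P ∈ cut tail head Y := by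
  classical
  induction n with
  | zero =>
    choose e he using fun P => (hU P).touch
    refine ⟨e, fun P => he P, fun Y hY h => Or.inl (hcomp Y hY fun P hP hPY => ?_)⟩
    exact absurd (h ⟨P, hP⟩ hPY) (Nat.not_lt_zero _)
  | succ n ih =>
    obtain ⟨e, he, hhit⟩ := ih (by omega)
    by_cases hP : ∃ P : S, r P = n
    swap
    · refine ⟨e, he, fun Y hY h => hhit Y hY fun P hPY => ?_⟩
      have h1 := h P hPY
      have h2 : r P ≠ n := fun h => hP ⟨P, h⟩
      omega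
    obtain ⟨P, hP⟩ := hP
    let 𝒬 : Set (Set V) := {Y | Y ∈ M ∧ (∀ Q : S, Touch tail head Q.1 Y → r Q < n + 1) ∧
      (∀ a ∈ F, a ∉ cut tail head Y) ∧ ∀ Q : S, r Q < n → e Q ∉ cut tail head Y}
    have hQtouch : ∀ Y ∈ 𝒬, Touch tail head P.1 Y := by
      rintro Y ⟨h1, h2, h3, h3'⟩
      by_contra hcon
      have hlt : ∀ Q : S, Touch tail head Q.1 Y → r Q < n := by
        intro Q hQY
        have h4 := h2 Q hQY
        have h5 : r Q ≠ n := by
          intro h
          rw [← hP] at h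
          rw [hr h] at hQY
          exact hcon hQY
        omega
      rcases hhit Y h1 hlt with ⟨a, ha1, ha2⟩ | ⟨Q, hQ⟩
      · exact h3 a ha1 ha2
      · exact h3' Q (hlt Q ⟨e Q, (he Q).1, hQ⟩) hQ
    have hQsub : ∀ Y ∈ 𝒬, P.1 ⊆ Y := by
      intro Y hY
      apply hS.min' (hMs Y hY.1).1 (hMs Y hY.1).2 P.2 (hQtouch Y hY)
      intro Q hQ hQY hQP
      by_contra hne
      have h1 := hr' ⟨Q, hQ⟩ P hQP (fun h => hne (by rw [← h]))
      have h2 := hY.2.1 ⟨Q, hQ⟩ hQY
      omega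
    have hUQ : U P ∈ 𝒬 := by
      refine ⟨hMU P (by omega), ?_, hFU P, ?_⟩
      · intro Q hQ
        have h1 := (hU P).only Q.1 Q.2 hQ
        by_cases h2 : P = Q
        · rw [← h2]; omega
        · have := hr' P Q h1 h2
          omega
      · intro Q hQ hQU
        have h2 : Q ≠ P := by
          intro h
          rw [h] at hQ
          omega
        exact hdisj Q P h2 _ (he Q).2 hQU
    have hQfin : 𝒬.Finite := hM.subset fun Y hY => hY.1
    obtain ⟨T, hT1, hT2⟩ := hQfin.exists_maximal ⟨_, hUQ⟩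
    have htop : ∀ Y ∈ 𝒬, Y ⊆ T := by
      intro Y hY
      have h1 : T ∪ Y ∈ 𝒬 := by
        refine ⟨hMu T hT1.1 Y hY.1, ?_, ?_, ?_⟩
        · intro Q hQ
          rcases hQ.union with h | h
          · exact hT1.2.1 Q h
          · exact hY.2.1 Q h
        · intro a ha h
          rcases cut_union T Y h with h | h
          · exact hT1.2.2.1 a ha h
          · exact hY.2.2.1 a ha h
        · intro Q hQ h
          rcases cut_union T Y h with h | h
          · exact hT1.2.2.2 Q hQ h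
          · exact hY.2.2.2 Q hQ h
      have h2 : T ∪ Y ⊆ T := hT2 h1 Set.subset_union_left
      exact Set.subset_union_right.trans h2
    obtain ⟨a, ha1, ha2⟩ := hQtouch T hT1
    have hall : ∀ Y ∈ 𝒬, a ∈ cut tail head Y := by
      intro Y hY
      exact ⟨hQsub Y hY ha1.1, fun h => ha2.2 (htop Y hY h)⟩
    refine ⟨Function.update e P a, ?_, ?_⟩
    · intro Q
      by_cases h : Q = P
      · subst h
        rw [Function.update_self]
        exact ⟨ha1, hall _ hUQ⟩
      · rw [Function.update_of_ne h]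
        exact he Q
    · intro Y hY h
      by_cases hF : ∃ a ∈ F, a ∈ cut tail head Y
      · exact Or.inl hF
      right
      push Not at hF
      by_cases h1 : Y ∈ 𝒬
      · refine ⟨P, ?_⟩
        rw [Function.update_self]
        exact hall Y h1
      · have h2 : ∃ Q : S, r Q < n ∧ e Q ∈ cut tail head Y := by
          by_contra hcon
          push Not at hcon
          exact h1 ⟨hY, h, hF, hcon⟩
        obtain ⟨Q, hQ1, hQ2⟩ := h2
        refine ⟨Q, ?_⟩
        rw [Function.update_of_ne]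
        · exact hQ2
        · intro h3
          rw [h3] at hQ1
          omega

/-- finite families of sides can be hit -/
theorem finite_hit {S : Set (Set V)}
    (hS : PScheme tail head t S)
    (hroot : ∀ v, ∃ n, Steps tail head t v n)
    (hUn : ∀ X Y, Gd tail head X → Gd tail head Y → Gd tail head (X ∪ Y))
    (r : S → ℕ) (hr : Function.Injective r)
    (hr' : ∀ P Q : S, P.1 ⊆ Q.1 → P ≠ Q → r Q < r P)
    (U : S → Set V) (hU : ∀ P, Good tail head t S P.1 (U P))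
    (hdisj : ∀ P Q, P ≠ Q → ∀ a, a ∈ cut tail head (U P) → a ∉ cut tail head (U Q))
    (hFU : ∀ P, ∀ a ∈ F, a ∉ cut tail head (U P))
    (hcomp : ∀ Y, Gd tail head Y → (∀ P ∈ S, ¬ Touch tail head P Y) →
      ∃ a ∈ F, a ∈ cut tail head Y)
    (R : Set (Set V)) (hR : R.Finite) (hRs : ∀ Y ∈ R, Gd tail head Y) :
    ∃ e : S → A, (∀ P, e P ∈ cut tail head P.1 ∧ e P ∈ cut tail head (U P)) ∧
      ∀ Y ∈ R, (∃ a ∈ F, a ∈ cut tail head Y) ∨ ∃ P, e P ∈ cut tail head Y := by
  classical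
  -- a bound for the ranks
  have hfin : {P : S | ∃ Y ∈ R, Touch tail head P.1 Y}.Finite := by
    have h1 : (⋃ Y ∈ R, {P | P ∈ S ∧ Touch tail head P Y}).Finite :=
      hR.biUnion fun Y hY => finite_touch hS.disj (hRs Y hY).fin
    apply Set.Finite.of_finite_image (f := Subtype.val) _ Subtype.val_injective.injOn
    apply h1.subset
    rintro _ ⟨Q, ⟨Y, hY, hQY⟩, rfl⟩
    exact Set.mem_biUnion hY ⟨Q.2, hQY⟩
  obtain ⟨N, hN⟩ := (hfin.image r).bddAbove
  have hN' : ∀ P : S, (∃ Y ∈ R, Touch tail head P.1 Y) → r P < N + 1 := fun P hP =>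
    Nat.lt_succ_of_le (hN ⟨P, hP, rfl⟩)
  have hUfin : (U '' {P | r P < N + 1}).Finite := by
    apply Set.Finite.image
    exact (Set.finite_Iio (N + 1)).preimage hr.injOn
  let 𝒢 : Set (Set V) := R ∪ U '' {P | r P < N + 1}
  have hG : 𝒢.Finite := hR.union hUfin
  have hGs : ∀ Y ∈ 𝒢, Gd tail head Y := by
    rintro Y (hY | ⟨P, _, rfl⟩)
    · exact hRs Y hY
    · exact ⟨(hU P).side.closed, (hU P).side.fin, cut_nonempty hroot (hU P).side.closed
        ((hS.ne P.1 P.2).mono (hU P).sub) (hU P).side.root⟩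
  let M : Set (Set V) := Set.sUnion '' {T | T ⊆ 𝒢 ∧ T.Nonempty}
  have hM : M.Finite := (hG.finite_subsets.subset fun T hT => hT.1).image _
  have hMs : ∀ Y ∈ M, Gd tail head Y := by
    rintro _ ⟨T, ⟨hT, hTne⟩, rfl⟩
    have hTfin : T.Finite := hG.subset hT
    induction T, hTfin using Set.Finite.induction_on with
    | empty => exact absurd hTne Set.not_nonempty_empty
    | insert _ _ ih =>
      rename_i X T' _ _
      rw [Set.sUnion_insert]
      rcases T'.eq_empty_or_nonempty with rfl | hne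
      · rw [Set.sUnion_empty, Set.union_empty]
        exact hGs X (hT (Set.mem_insert X ∅))
      · exact hUn _ _ (hGs X (hT (Set.mem_insert X T')))
          (ih ((Set.subset_insert X T').trans hT) hne)
  have hMu : ∀ X ∈ M, ∀ Y ∈ M, X ∪ Y ∈ M := by
    rintro _ ⟨T, ⟨hT, hTne⟩, rfl⟩ _ ⟨T', ⟨hT', _⟩, rfl⟩
    exact ⟨T ∪ T', ⟨Set.union_subset hT hT', hTne.mono Set.subset_union_left⟩,
      Set.sUnion_union T T'⟩
  have hsub : 𝒢 ⊆ M := fun Y hY => ⟨{Y}, ⟨Set.singleton_subset_iff.2 hY, Set.singleton_nonempty Y⟩,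
    Set.sUnion_singleton Y⟩
  obtain ⟨e, he, hhit⟩ := finite_step (F := F) hS r hr hr' U hU hdisj hFU M hM
    (fun Y hY => ⟨(hMs Y hY).closed, (hMs Y hY).fin⟩)
    (fun Y hY => hcomp Y (hMs Y hY)) hMu (N + 1)
    (fun P hP => hsub (Or.inr ⟨P, hP, rfl⟩)) (N + 1) le_rfl
  exact ⟨e, he, fun Y hY => hhit Y (hsub (Or.inl hY)) fun P hPY => hN' P ⟨Y, hY, hPY⟩⟩

/-- a scheme and an admissible pair for the sides untouched by it give an admissible pair -/
theorem concl_of_scheme [Countable V]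
    (hWC : ∀ X : Set V, X.Nonempty → Closed tail head X → cut tail head X = ∅ → X = Set.univ)
    (hUn : ∀ X Y, Gd tail head X → Gd tail head Y → X ∪ Y ≠ Set.univ)
    {S : Set (Set V)} (hS : PScheme tail head t S)
    (hcomp : ∀ Y, Side tail head t Y → Y.Nonempty → ∃ P ∈ S, Touch tail head P Y)
    (h1 : ConclOn tail head (fun X => ∀ P ∈ S, ¬ Touch tail head P X) 𝒞 F) :
    ∃ 𝒞' F', ConclOn tail head (fun _ => True) 𝒞' F' := by
  classical
  have hroot := fun v => exists_steps hWC t v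
  have hUn' : ∀ X Y, Gd tail head X → Gd tail head Y → Gd tail head (X ∪ Y) := by
    intro X Y hX hY
    refine ⟨hX.closed.union hY.closed, (hX.fin.union hY.fin).subset (cut_union X Y), ?_⟩
    rw [Set.nonempty_iff_ne_empty]
    intro h
    apply hUn X Y hX hY
    apply hWC _ _ (hX.closed.union hY.closed) h
    obtain ⟨a, ha⟩ := hX.ne
    exact ⟨tail a, Or.inl ha.1⟩
  obtain ⟨c1, c2, c3, c4, c5⟩ := h1
  have hrel : ∀ Z, Side tail head t Z → {C | C ∈ 𝒞 ∧ ∃ a ∈ C, tail a ∈ Z}.Finite := by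
    intro Z hZ
    apply finite_relevant hWC hUn _ c2 hZ
    intro C hC
    obtain ⟨X, hX1, hX2, hX3⟩ := c1 C hC
    refine ⟨X, hX1, ?_, hX3⟩
    by_contra ht
    obtain ⟨a, ha⟩ := hX1.ne
    obtain ⟨P, hP, hPX⟩ := hcomp X ⟨hX1.closed, ht, hX1.fin⟩ ⟨tail a, ha.1⟩
    exact hX2 P hP hPX
  obtain ⟨r, hr, hr'⟩ := exists_rank hroot hS
  obtain ⟨U, hU, hdisj, hUC⟩ := exists_U hroot hS r hr hr' c1 hrel
  have hFU : ∀ P, ∀ a ∈ F, a ∉ cut tail head (U P) := by
    intro P a ha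
    obtain ⟨C, hC, haC⟩ := c3 ha
    exact hUC P C hC a haC
  let I := Finset {Y : Set V // Gd tail head Y}
  have hfin : ∀ R : I, ∃ e : S → A, (∀ P, e P ∈ cut tail head P.1 ∧ e P ∈ cut tail head (U P)) ∧
      ∀ Y ∈ R, (∃ a ∈ F, a ∈ cut tail head Y.1) ∨ ∃ P, e P ∈ cut tail head Y.1 := by
    intro R
    obtain ⟨e, he1, he2⟩ := finite_hit (F := F) hS hroot hUn' r hr hr' U hU hdisj hFU
      (fun Y hY h => by
        obtain ⟨a, ha1, ha2⟩ := c5 Y hY h
        exact ⟨a, ha2, ha1⟩)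
      (Subtype.val '' (R : Set {Y : Set V // Gd tail head Y}))
      (R.finite_toSet.image _) (by rintro _ ⟨Y, _, rfl⟩; exact Y.2)
    exact ⟨e, he1, fun Y hY => he2 Y.1 ⟨Y, hY, rfl⟩⟩
  choose E hE1 hE2 using hfin
  let 𝒰 : Ultrafilter I := Ultrafilter.of Filter.atTop
  have hcone : ∀ R : I, ∀ᶠ R' : I in (𝒰 : Filter I), R ≤ R' := fun R =>
    (Ultrafilter.of_le (Filter.atTop : Filter I)) (Filter.eventually_ge_atTop R)
  have hex : ∀ P : S, ∃ a ∈ cut tail head (U P), ∀ᶠ R : I in (𝒰 : Filter I), E R P = a := by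
    intro P
    rw [← Ultrafilter.eventually_exists_mem_iff (hU P).side.fin]
    exact Filter.Eventually.of_forall fun R => ⟨E R P, (hE1 R P).2, rfl⟩
  choose e he1 he2 using hex
  have hhit : ∀ Y, Gd tail head Y → (∀ a ∈ F, a ∉ cut tail head Y) →
      ∃ P, e P ∈ cut tail head Y := by
    intro Y hY hYF
    have hT : {P : S | Touch tail head P.1 Y}.Finite := by
      apply Set.Finite.of_finite_image (f := Subtype.val) _ Subtype.val_injective.injOn
      apply (finite_touch hS.disj hY.fin).subset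
      rintro _ ⟨Q, hQ, rfl⟩
      exact ⟨Q.2, hQ⟩
    have h1 : ∀ᶠ R : I in (𝒰 : Filter I), ∃ P ∈ {P : S | Touch tail head P.1 Y},
        E R P ∈ cut tail head Y := by
      filter_upwards [hcone {⟨Y, hY⟩}] with R hR
      rcases hE2 R ⟨Y, hY⟩ (hR (Finset.mem_singleton_self _)) with ⟨a, ha1, ha2⟩ | ⟨P, hP⟩
      · exact absurd ha2 (hYF a ha1)
      · exact ⟨P, ⟨_, (hE1 R P).1, hP⟩, hP⟩
    rw [Ultrafilter.eventually_exists_mem_iff hT] at h1
    obtain ⟨P, _, hP⟩ := h1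
    obtain ⟨R, h2, h3⟩ := (hP.and (he2 P)).exists
    exact ⟨P, by rw [← h3]; exact h2⟩
  have hUC' : ∀ P, ∀ C ∈ 𝒞, Disjoint C (cut tail head (U P)) := fun P C hC =>
    Set.disjoint_left.2 fun a ha => hUC P C hC a ha
  refine ⟨𝒞 ∪ Set.range fun P => cut tail head (U P), F ∪ Set.range e, ?_, ?_, ?_, ?_, ?_⟩
  · rintro _ (hC | ⟨P, rfl⟩)
    · obtain ⟨X, hX1, _, hX3⟩ := c1 _ hC
      exact ⟨X, hX1, trivial, hX3⟩
    · exact ⟨U P, ⟨(hU P).side.closed, (hU P).side.fin, e P, he1 P⟩, trivial, rfl⟩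
  · rintro C (hC | ⟨P, rfl⟩) C' (hC' | ⟨Q, rfl⟩) hne
    · exact c2 C hC C' hC' hne
    · exact hUC' Q C hC
    · exact (hUC' P C' hC').symm
    · rw [Set.disjoint_left]
      intro a haP haQ
      have h1 : P ≠ Q := fun h => hne (by rw [h])
      exact hdisj P Q h1 a haP haQ
  · rintro a (ha | ⟨P, rfl⟩)
    · obtain ⟨C, hC, haC⟩ := c3 ha
      exact ⟨C, Or.inl hC, haC⟩
    · exact ⟨_, Or.inr ⟨P, rfl⟩, he1 P⟩
  · rintro C (hC | ⟨P, rfl⟩)
    · obtain ⟨a, ha⟩ := c4 C hC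
      refine ⟨a, ?_⟩
      rw [Set.inter_union_distrib_left, ha]
      apply Set.union_eq_left.2
      rintro _ ⟨hb, P, rfl⟩
      exact absurd (he1 P) (hUC P C hC _ hb)
    · refine ⟨e P, ?_⟩
      apply subset_antisymm
      · rintro a ⟨ha, (haF | ⟨Q, rfl⟩)⟩
        · exact absurd ha (hFU P a haF)
        · by_contra hne
          have h1 : P ≠ Q := fun h => hne (by rw [h]; rfl)
          exact hdisj P Q h1 _ ha (he1 Q)
      · rintro a ha
        have ha' : a = e P := ha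
        rw [ha']
        exact ⟨he1 P, Or.inr ⟨P, rfl⟩⟩
  · intro X hX _
    by_cases hF : ∃ a ∈ F, a ∈ cut tail head X
    · obtain ⟨a, ha1, ha2⟩ := hF
      exact ⟨a, ha2, Or.inl ha1⟩
    · push Not at hF
      obtain ⟨P, hP⟩ := hhit X hX hF
      exact ⟨e P, hP, Or.inr ⟨P, rfl⟩⟩

end Pool.Agent.LYS
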