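import Mathlib

/-!
Infinite Lucchesi-Younger, rooted scattered case: basic notions.
Orientation: source sides `X` of dicuts; no arc enters `X`; `cut X` = arcs leaving `X`;
a base vertex `t`, joined to every vertex by an undirected path, never in a side.
-/

namespace Pool.Agent.LYS

variable {V A : Type*}

/-- No arc enters `X`. -/
def Closed (tail head : A → V) (X : Set V) : Prop := ∀ a, head a ∈ X → tail a ∈ X

/-- The arcs leaving `X`. -/
def cut (tail head : A → V) (X : Set V) : Set A := {a | tail a ∈ X ∧ head a ∉ X}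

/-- `v` is joined to `t` by an undirected path with `n` steps. -/
inductive Steps (tail head : A → V) (t : V) : V → ℕ → Prop
  | refl : Steps tail head t t 0
  | fwd (a : A) (n : ℕ) : Steps tail head t (head a) n → Steps tail head t (tail a) (n + 1)
  | bwd (a : A) (n : ℕ) : Steps tail head t (tail a) n → Steps tail head t (head a) (n + 1)

/-- closed sets missing the root with a finite cut -/
structure Side (tail head : A → V) (t : V) (X : Set V) : Prop where
  closed : Closed tail head X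
  root : t ∉ X
  fin : (cut tail head X).Finite

/-- `P` and `Y` have a common cut arc. -/
def Touch (tail head : A → V) (P Y : Set V) : Prop :=
  (cut tail head P ∩ cut tail head Y).Nonempty

/-- sides not touched by the family -/
def Untouched (tail head : A → V) (t : V) (S : Set (Set V)) (Y : Set V) : Prop :=
  Side tail head t Y ∧ ∀ P ∈ S, ¬ Touch tail head P Y

/-- `Q` is an intersection of untouched sides. -/
def NearU (tail head : A → V) (t : V) (S : Set (Set V)) (Q : Set V) : Prop :=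
  ∀ x, x ∉ Q → ∃ Z, Untouched tail head t S Z ∧ Q ⊆ Z ∧ x ∉ Z

/-- partial schemes -/
structure PScheme (tail head : A → V) (t : V) (S : Set (Set V)) : Prop where
  closed : ∀ P ∈ S, Closed tail head P
  ne : ∀ P ∈ S, P.Nonempty
  root : ∀ P ∈ S, t ∉ P
  disj : ∀ P ∈ S, ∀ Q ∈ S, P ≠ Q → ∀ a, a ∈ cut tail head P → a ∉ cut tail head Q
  min : ∀ Y, Side tail head t Y → ∀ P ∈ S, Touch tail head P Y →
    (∀ Q ∈ S, Touch tail head Q Y → Q ⊆ P → Q = P) → P ⊆ Y
  near : ∀ P ∈ S, ∀ x, x ∉ P → ∃ Z, Side tail head t Z ∧ P ⊆ Z ∧ x ∉ Z ∧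
    (∀ Q ∈ S, Touch tail head Q Z → P ⊆ Q) ∧
    (∀ Y, Side tail head t Y → Y ⊆ Z → Y.Nonempty → ∃ Q ∈ S, Touch tail head Q Y)

variable {tail head : A → V} {t : V}

theorem Closed.inter {X Y : Set V} (hX : Closed tail head X) (hY : Closed tail head Y) :
    Closed tail head (X ∩ Y) := fun a h => ⟨hX a h.1, hY a h.2⟩

theorem Closed.union {X Y : Set V} (hX : Closed tail head X) (hY : Closed tail head Y) :
    Closed tail head (X ∪ Y) := by
  rintro a (h | h)
  · exact Or.inl (hX a h)
  · exact Or.inr (hY a h)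

theorem cut_inter (X Y : Set V) :
    cut tail head (X ∩ Y) ⊆ cut tail head X ∪ cut tail head Y := by
  rintro a ⟨h1, h2⟩
  by_cases h3 : head a ∈ X
  · exact Or.inr ⟨h1.2, fun h => h2 ⟨h3, h⟩⟩
  · exact Or.inl ⟨h1.1, h3⟩

theorem cut_union (X Y : Set V) :
    cut tail head (X ∪ Y) ⊆ cut tail head X ∪ cut tail head Y := by
  rintro a ⟨h1, h2⟩
  rcases h1 with h1 | h1
  · exact Or.inl ⟨h1, fun h => h2 (Or.inl h)⟩
  · exact Or.inr ⟨h1, fun h => h2 (Or.inr h)⟩

theorem Side.inter {X Y : Set V} (hX : Side tail head t X) (hY : Side tail head t Y) :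
    Side tail head t (X ∩ Y) :=
  ⟨hX.closed.inter hY.closed, fun h => hX.root h.1, (hX.fin.union hY.fin).subset (cut_inter X Y)⟩

theorem Side.union {X Y : Set V} (hX : Side tail head t X) (hY : Side tail head t Y) :
    Side tail head t (X ∪ Y) :=
  ⟨hX.closed.union hY.closed, fun h => h.elim hX.root hY.root,
    (hX.fin.union hY.fin).subset (cut_union X Y)⟩

theorem side_empty : Side tail head t (∅ : Set V) :=
  ⟨fun a h => h, fun h => h, by
    have : cut tail head (∅ : Set V) = ∅ := by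
      ext a; simp [cut]
    rw [this]; exact Set.finite_empty⟩

theorem Touch.inter {P X Y : Set V} (h : Touch tail head P (X ∩ Y)) :
    Touch tail head P X ∨ Touch tail head P Y := by
  obtain ⟨a, h1, h2⟩ := h
  rcases cut_inter X Y h2 with h3 | h3
  · exact Or.inl ⟨a, h1, h3⟩
  · exact Or.inr ⟨a, h1, h3⟩

theorem Touch.union {P X Y : Set V} (h : Touch tail head P (X ∪ Y)) :
    Touch tail head P X ∨ Touch tail head P Y := by
  obtain ⟨a, h1, h2⟩ := h
  rcases cut_union X Y h2 with h3 | h3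
  · exact Or.inl ⟨a, h1, h3⟩
  · exact Or.inr ⟨a, h1, h3⟩

theorem Untouched.inter {S : Set (Set V)} {X Y : Set V} (hX : Untouched tail head t S X)
    (hY : Untouched tail head t S Y) : Untouched tail head t S (X ∩ Y) :=
  ⟨hX.1.inter hY.1, fun P hP h => h.inter.elim (hX.2 P hP) (hY.2 P hP)⟩

theorem Untouched.union {S : Set (Set V)} {X Y : Set V} (hX : Untouched tail head t S X)
    (hY : Untouched tail head t S Y) : Untouched tail head t S (X ∪ Y) :=
  ⟨hX.1.union hY.1, fun P hP h => h.union.elim (hX.2 P hP) (hY.2 P hP)⟩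

theorem untouched_empty {S : Set (Set V)} : Untouched tail head t S (∅ : Set V) :=
  ⟨side_empty, fun P _ h => by
    obtain ⟨a, _, h2⟩ := h
    exact h2.1⟩

theorem Untouched.mono {S S' : Set (Set V)} (h : S ⊆ S') {Y : Set V}
    (hY : Untouched tail head t S' Y) : Untouched tail head t S Y :=
  ⟨hY.1, fun P hP => hY.2 P (h hP)⟩

/-- a nonempty closed set missing the base vertex is left by an arc -/
theorem cut_nonempty (hroot : ∀ v, ∃ n, Steps tail head t v n) {P : Set V}
    (hPc : Closed tail head P) (hP : P.Nonempty)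
    (ht : t ∉ P) : (cut tail head P).Nonempty := by
  obtain ⟨v, hv⟩ := hP
  obtain ⟨n, hn⟩ := hroot v
  induction hn with
  | refl => exact absurd hv ht
  | fwd a n h ih =>
    by_cases h1 : head a ∈ P
    · exact ih h1
    · exact ⟨a, hv, h1⟩
  | bwd a n h ih => exact ih (hPc a hv)

/-- a family of closed sets missing the base vertex with disjoint cuts is point-finite -/
theorem finite_over (hroot : ∀ v, ∃ n, Steps tail head t v n) {S : Set (Set V)}
    (hSc : ∀ P ∈ S, Closed tail head P)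
    (hdisj : ∀ P ∈ S, ∀ Q ∈ S, P ≠ Q → ∀ a, a ∈ cut tail head P → a ∉ cut tail head Q)
    (ht : ∀ P ∈ S, t ∉ P) (v : V) : {P | P ∈ S ∧ v ∈ P}.Finite := by
  obtain ⟨n, hn⟩ := hroot v
  induction hn with
  | refl =>
    have : {P | P ∈ S ∧ t ∈ P} = ∅ := by
      ext P
      simp only [Set.mem_ofPred_eq, Set.mem_empty_iff_false, iff_false, not_and]
      exact fun h => ht P h
    rw [this]; exact Set.finite_empty
  | bwd a n h ih => exact ih.subset fun P hP => ⟨hP.1, hSc P hP.1 a hP.2⟩
  | fwd a n h ih =>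
    have h2 : {P | P ∈ S ∧ tail a ∈ P} ⊆
        {P | P ∈ S ∧ head a ∈ P} ∪ {P | P ∈ S ∧ a ∈ cut tail head P} := by
      rintro P ⟨h1, h2⟩
      by_cases h3 : head a ∈ P
      · exact Or.inl ⟨h1, h3⟩
      · exact Or.inr ⟨h1, h2, h3⟩
    refine (ih.union ?_).subset h2
    apply Set.Subsingleton.finite
    rintro P ⟨h3, h4⟩ Q ⟨h5, h6⟩
    by_contra hne
    exact hdisj P h3 Q h5 hne a h4 h6

/-- only finitely many members touch a side -/
theorem finite_touch {S : Set (Set V)}
    (hdisj : ∀ P ∈ S, ∀ Q ∈ S, P ≠ Q → ∀ a, a ∈ cut tail head P → a ∉ cut tail head Q)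
    {Y : Set V} (hY : (cut tail head Y).Finite) : {P | P ∈ S ∧ Touch tail head P Y}.Finite := by
  have h2 : {P | P ∈ S ∧ Touch tail head P Y} ⊆
      ⋃ a ∈ cut tail head Y, {P | P ∈ S ∧ a ∈ cut tail head P} := by
    rintro P ⟨h1, a, h2, h3⟩
    exact Set.mem_biUnion h3 ⟨h1, h2⟩
  refine (hY.biUnion fun a _ => ?_).subset h2
  apply Set.Subsingleton.finite
  rintro P ⟨h3, h4⟩ Q ⟨h5, h6⟩
  by_contra hne
  exact hdisj P h3 Q h5 hne a h4 h6

/-- a touched side contains a member touching it -/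
theorem PScheme.exists_min {S : Set (Set V)} (hS : PScheme tail head t S) {Y : Set V}
    (hY : Side tail head t Y) (h : ∃ P ∈ S, Touch tail head P Y) :
    ∃ P ∈ S, Touch tail head P Y ∧ P ⊆ Y ∧
      ∀ Q ∈ S, Touch tail head Q Y → Q ⊆ P → Q = P := by
  have hfin := finite_touch hS.disj hY.fin
  obtain ⟨P0, h1, h2⟩ := h
  obtain ⟨P, hP1, hP2⟩ := hfin.exists_minimal ⟨P0, h1, h2⟩
  have hm : ∀ Q ∈ S, Touch tail head Q Y → Q ⊆ P → Q = P := by
    intro Q hQ hQY hQP
    exact subset_antisymm hQP (hP2 ⟨hQ, hQY⟩ hQP)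
  exact ⟨P, hP1.1, hP1.2, hS.min Y hY P hP1.1 hP1.2 hm, hm⟩

/-- a path to the base vertex in a weakly connected digraph -/
theorem exists_steps (hW : ∀ X : Set V, X.Nonempty → Closed tail head X → cut tail head X = ∅ →
    X = Set.univ) (t : V) (v : V) : ∃ n, Steps tail head t v n := by
  have h : {v | ∃ n, Steps tail head t v n} = Set.univ := by
    apply hW {v | ∃ n, Steps tail head t v n} ⟨t, 0, Steps.refl⟩
    · rintro a ⟨n, hn⟩
      exact ⟨n + 1, Steps.fwd a n hn⟩
    · ext a
      simp only [cut, Set.mem_ofPred_eq, Set.mem_empty_iff_false, iff_false, not_and, not_not]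
      rintro ⟨n, hn⟩
      exact ⟨n + 1, Steps.bwd a n hn⟩
  have h2 : v ∈ {v | ∃ n, Steps tail head t v n} := by rw [h]; exact Set.mem_univ v
  exact h2

/-- an intersection of untouched sides which touches the near side `Z` of `P` contains `P` -/
theorem near_ext {S : Set (Set V)} (hS : PScheme tail head t S) {P Z Q : Set V}
    (hZ : Side tail head t Z) (h1 : ∀ Q ∈ S, Touch tail head Q Z → P ⊆ Q)
    (h2 : ∀ Y, Side tail head t Y → Y ⊆ Z → Y.Nonempty → ∃ Q ∈ S, Touch tail head Q Y)
    (hQ : NearU tail head t S Q) (hQZ : Touch tail head Q Z) : P ⊆ Q := by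
  intro p hp
  by_contra hpQ
  obtain ⟨Z', hZ', hQZ', hpZ'⟩ := hQ p hpQ
  obtain ⟨a, ha1, ha2⟩ := hQZ
  have hs : Side tail head t (Z' ∩ Z) := hZ'.1.inter hZ
  obtain ⟨R, hR1, hR2, hR3, _⟩ := hS.exists_min hs
    (h2 _ hs Set.inter_subset_right ⟨tail a, hQZ' ha1.1, ha2.1⟩)
  rcases hR2.inter with h3 | h3
  · exact hZ'.2 R hR1 h3
  · exact hpZ' (hR3 (h1 R hR1 h3 hp)).1

end Pool.Agent.LYS
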