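import Pool.Agent.LYS.Ext

/-!
Existence of Busemann functions at isolating sides.
-/

namespace Pool.Agent.LYS

variable {V A : Type*} {tail head : A → V} {t : V}

theorem ultra_const {ι : Type*} (𝒰 : Ultrafilter ι) (f : ι → ℕ) (n : ℕ)
    (h : ∀ᶠ i in (𝒰 : Filter ι), f i ≤ n) : ∃ k, ∀ᶠ i in (𝒰 : Filter ι), f i = k := by
  induction n with
  | zero => exact ⟨0, h.mono fun i hi => by omega⟩
  | succ n ih =>
    by_cases h1 : ∀ᶠ i in (𝒰 : Filter ι), f i = n + 1
    · exact ⟨_, h1⟩
    · rw [← Ultrafilter.eventually_not] at h1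
      apply ih
      filter_upwards [h, h1] with i h2 h3
      omega

/-- closure under the sides of `L` -/
def K (L : Set (Set V)) (X : Set V) : Set V := {v | ∀ Z ∈ L, X ⊆ Z → v ∈ Z}

theorem subset_K (L : Set (Set V)) (X : Set V) : X ⊆ K L X := fun _ hv _ _ h => h hv

theorem K_sub {L : Set (Set V)} {X Z : Set V} (hZ : Z ∈ L) (h : X ⊆ Z) : K L X ⊆ Z :=
  fun _ hv => hv Z hZ h

/-- balls around `U` -/
def ball (tail head : A → V) (L : Set (Set V)) (U : Set V) : ℕ → Set V
  | 0 => U
  | i + 1 => K L (ball tail head L U i ∪ {v | ∃ a, tail a ∈ ball tail head L U i ∧ head a = v})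

/-- index of the first ball containing `v` -/
noncomputable def dst (tail head : A → V) (L : Set (Set V)) (U : Set V) (v : V) : ℕ :=
  sInf {i | v ∈ ball tail head L U i}

section

variable {L : Set (Set V)}

theorem ball_succ_sub (U : Set V) (i : ℕ) :
    ball tail head L U i ⊆ ball tail head L U (i + 1) :=
  Set.subset_union_left.trans (subset_K L _)

theorem ball_mono (U : Set V) {i j : ℕ} (h : i ≤ j) :
    ball tail head L U i ⊆ ball tail head L U j := by
  induction h with
  | refl => exact subset_rfl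
  | step _ ih => exact ih.trans (ball_succ_sub U _)

theorem ball_head (U : Set V) {i : ℕ} {a : A} (h : tail a ∈ ball tail head L U i) :
    head a ∈ ball tail head L U (i + 1) :=
  subset_K L _ (Or.inr ⟨a, h, rfl⟩)

variable (hroot : ∀ v, ∃ n, Steps tail head t v n) (hL : ∀ Z ∈ L, Side tail head t Z)

include hL in
theorem K_closed (X : Set V) : Closed tail head (K L X) :=
  fun a h Z hZ hX => (hL Z hZ).closed a (h Z hZ hX)

include hL in
theorem ball_closed {U : Set V} (hU : U ∈ L) (i : ℕ) : Closed tail head (ball tail head L U i) := by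
  cases i with
  | zero => exact (hL U hU).closed
  | succ i => exact K_closed hL _

include hL in
theorem ball_root {U : Set V} (hU : U ∈ L) {u : V} {n : ℕ} (h : Steps tail head t u n) {i : ℕ}
    (hu : u ∈ ball tail head L U i) : t ∈ ball tail head L U (i + n) := by
  induction h generalizing i with
  | refl => exact hu
  | fwd a n h ih =>
    have := ih (ball_head U hu)
    rwa [show i + (n + 1) = i + 1 + n by ring]
  | bwd a n h ih =>
    have := ih (ball_closed hL hU i a hu)
    exact ball_succ_sub U _ this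

include hL in
theorem ball_univ {U : Set V} (hU : U ∈ L) {i : ℕ} (ht : t ∈ ball tail head L U i) :
    ball tail head L U i = Set.univ := by
  cases i with
  | zero => exact absurd ht (hL U hU).root
  | succ i =>
    apply Set.eq_univ_of_forall
    intro v Z hZ h
    exact absurd (ht Z hZ h) (hL Z hZ).root

include hroot hL in
theorem exists_ball {U : Set V} (hU : U ∈ L) (hne : U.Nonempty) (v : V) :
    ∃ i, v ∈ ball tail head L U i := by
  obtain ⟨u, hu⟩ := hne
  obtain ⟨n, hn⟩ := hroot u
  have h1 : t ∈ ball tail head L U (0 + n) := ball_root hL hU hn hu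
  refine ⟨0 + n, ?_⟩
  rw [ball_univ hL hU h1]
  exact Set.mem_univ v

include hroot hL in
theorem mem_ball {U : Set V} (hU : U ∈ L) (hne : U.Nonempty) {v : V} {i : ℕ} :
    v ∈ ball tail head L U i ↔ dst tail head L U v ≤ i := by
  constructor
  · intro h
    exact Nat.sInf_le h
  · intro h
    have h1 : v ∈ ball tail head L U (dst tail head L U v) :=
      Nat.sInf_mem (s := {i | v ∈ ball tail head L U i}) (exists_ball hroot hL hU hne v)
    exact ball_mono U h h1

include hroot hL in
theorem dst_le_root {U : Set V} (hU : U ∈ L) (hne : U.Nonempty) (v : V) :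
    dst tail head L U v ≤ dst tail head L U t := by
  rw [← mem_ball hroot hL hU hne, ball_univ hL hU ((mem_ball hroot hL hU hne).2 le_rfl)]
  exact Set.mem_univ v

include hroot hL in
theorem dst_head {U : Set V} (hU : U ∈ L) (hne : U.Nonempty) (a : A) :
    dst tail head L U (head a) ≤ dst tail head L U (tail a) + 1 := by
  rw [← mem_ball hroot hL hU hne]
  exact ball_head U ((mem_ball hroot hL hU hne).2 le_rfl)

include hroot hL in
theorem dst_tail {U : Set V} (hU : U ∈ L) (hne : U.Nonempty) (a : A) :
    dst tail head L U (tail a) ≤ dst tail head L U (head a) := by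
  rw [← mem_ball hroot hL hU hne]
  exact ball_closed hL hU _ a ((mem_ball hroot hL hU hne).2 le_rfl)

include hroot hL in
theorem dst_steps {U : Set V} (hU : U ∈ L) (hne : U.Nonempty) {v : V} {n : ℕ}
    (h : Steps tail head t v n) : dst tail head L U t ≤ dst tail head L U v + n := by
  rw [← mem_ball hroot hL hU hne]
  exact ball_root hL hU h ((mem_ball hroot hL hU hne).2 le_rfl)

/-- the vertices added in the next step, seen from outside of `N` -/
def nxt (tail head : A → V) (L : Set (Set V)) (N U : Set V) (i : ℕ) : Set V :=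
  {v | ∃ a, head a = v ∧ ((tail a ∈ ball tail head L U i ∪ N ∧ tail a ∉ N) ∨
    (a ∈ cut tail head N ∧ tail a ∈ ball tail head L U i))}

theorem W_succ (hun : ∀ Z ∈ L, ∀ N ∈ L, Z ∪ N ∈ L) {N U : Set V} (hN : N ∈ L) (i : ℕ) :
    ball tail head L U (i + 1) ∪ N =
      K L ((ball tail head L U i ∪ N) ∪ nxt tail head L N U i) := by
  apply subset_antisymm
  · rintro v (hv | hv) Z hZ h
    · apply hv Z hZ
      rintro w (hw | ⟨a, ha, rfl⟩)
      · exact h (Or.inl (Or.inl hw))
      · by_cases h1 : tail a ∈ N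
        · by_cases h2 : head a ∈ N
          · exact h (Or.inl (Or.inr h2))
          · exact h (Or.inr ⟨a, rfl, Or.inr ⟨⟨h1, h2⟩, ha⟩⟩)
        · exact h (Or.inr ⟨a, rfl, Or.inl ⟨Or.inl ha, h1⟩⟩)
    · exact h (Or.inl (Or.inr hv))
  · intro v hv
    by_cases hvN : v ∈ N
    · exact Or.inr hvN
    · left
      intro Z hZ h
      have h1 : v ∈ Z ∪ N := by
        apply hv _ (hun Z hZ N hN)
        rintro w ((hw | hw) | ⟨a, rfl, (⟨h3 | h3, h4⟩ | ⟨h3, h4⟩)⟩)
        · exact Or.inl (h (Or.inl hw))
        · exact Or.inr hw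
        · exact Or.inl (h (Or.inr ⟨a, h3, rfl⟩))
        · exact absurd h3 h4
        · exact Or.inl (h (Or.inr ⟨a, h4, rfl⟩))
      exact h1.resolve_right hvN

include hroot hL in
theorem shift (hun : ∀ Z ∈ L, ∀ N ∈ L, Z ∪ N ∈ L) {N U U' : Set V} (hN : N ∈ L) (hU : U ∈ L)
    (hU' : U' ∈ L) (hne : U.Nonempty) (hne' : U'.Nonempty) (hUN : U ⊆ N) (hUN' : U' ⊆ N) (c : ℕ)
    (hc : ∀ a ∈ cut tail head N, dst tail head L U' (tail a) = dst tail head L U (tail a) + c)
    (i : ℕ) : ball tail head L U' (i + c) ∪ N = ball tail head L U i ∪ N := by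
  have h0 : ∀ k ≤ c, ball tail head L U' k ∪ N = N := by
    intro k hk
    induction k with
    | zero => exact Set.union_eq_right.2 hUN'
    | succ k ih =>
      rw [W_succ hun hN, ih (by omega)]
      apply subset_antisymm
      · apply K_sub hN
        rintro v (hv | ⟨a, rfl, (⟨h1, h2⟩ | ⟨h1, h2⟩)⟩)
        · exact hv
        · rw [ih (by omega)] at h1
          exact absurd h1 h2
        · rw [mem_ball hroot hL hU' hne', hc a h1] at h2
          omega
      · exact Set.subset_union_left.trans (subset_K L _)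
  induction i with
  | zero =>
    rw [Nat.zero_add, h0 c le_rfl]
    exact (Set.union_eq_right.2 hUN).symm
  | succ i ih =>
    rw [show i + 1 + c = (i + c) + 1 by ring, W_succ hun hN, W_succ hun hN, ih]
    congr 2
    ext v
    simp only [nxt, Set.mem_ofPred_eq]
    apply exists_congr
    intro a
    apply and_congr_right
    intro _
    rw [ih]
    apply or_congr_right
    apply and_congr_right
    intro ha
    rw [mem_ball hroot hL hU' hne', mem_ball hroot hL hU hne, hc a ha]
    omega

end

/-- Busemann functions exist -/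
theorem exists_bus (hroot : ∀ v, ∃ n, Steps tail head t v n) {S : Set (Set V)} {B : Set V}
    (hB : Iso tail head t S B) : ∃ g, Bus tail head t S B g := by
  classical
  let L : Set (Set V) := {Z | Untouched tail head t S Z}
  have hL : ∀ Z ∈ L, Side tail head t Z := fun Z hZ => hZ.1
  have hun : ∀ Z ∈ L, ∀ N ∈ L, Z ∪ N ∈ L := fun Z hZ N hN => Untouched.union hZ hN
  let I := {U : Set V // U ∈ L ∧ U.Nonempty ∧ U ⊆ B}
  have : Nonempty I := ⟨⟨B, hB.unt, hB.ne, subset_rfl⟩⟩
  have : IsCodirectedOrder I := ⟨fun X Y =>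
    ⟨⟨X.1 ∩ Y.1, X.2.1.inter Y.2.1, hB.meet _ _ X.2.1 Y.2.1 X.2.2.1 Y.2.2.1 X.2.2.2 Y.2.2.2,
      Set.inter_subset_left.trans X.2.2.2⟩, Set.inter_subset_left, Set.inter_subset_right⟩⟩
  let 𝒰 : Ultrafilter I := Ultrafilter.of Filter.atBot
  have hcone : ∀ N : I, ∀ᶠ U : I in (𝒰 : Filter I), U.1 ⊆ N.1 := by
    intro N
    exact (Ultrafilter.of_le (Filter.atBot : Filter I)) (Filter.eventually_le_atBot N)
  let d : I → V → ℕ := fun U v => dst tail head L U.1 v
  have hmem : ∀ (U : I) (v : V) (i : ℕ), v ∈ ball tail head L U.1 i ↔ d U v ≤ i :=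
    fun U v i => mem_ball hroot hL U.2.1 U.2.2.1
  have hdt : ∀ U v, d U v ≤ d U t := fun U v => dst_le_root hroot hL U.2.1 U.2.2.1 v
  have hex : ∀ v, ∃ k, ∀ᶠ U in (𝒰 : Filter I), d U t - d U v = k := by
    intro v
    obtain ⟨n, hn⟩ := hroot v
    apply ultra_const 𝒰 (fun U => d U t - d U v) n
    apply Filter.Eventually.of_forall
    intro U
    have : d U t ≤ d U v + n := dst_steps hroot hL U.2.1 U.2.2.1 hn
    show d U t - d U v ≤ n
    omega
  choose g hg using hex
  refine ⟨g, ?_, ?_, ?_, ?_, ?_⟩
  · obtain ⟨U, hU⟩ := (hg t).exists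
    omega
  · intro a
    obtain ⟨U, h1, h2⟩ := ((hg (tail a)).and (hg (head a))).exists
    have : d U (tail a) ≤ d U (head a) := dst_tail hroot hL U.2.1 U.2.2.1 a
    omega
  · intro a
    obtain ⟨U, h1, h2⟩ := ((hg (tail a)).and (hg (head a))).exists
    have : d U (head a) ≤ d U (tail a) + 1 := dst_head hroot hL U.2.1 U.2.2.1 a
    omega
  · intro Y U0 hY hU0 hne hU0B hU0Y
    have key : ∀ᶠ U in (𝒰 : Filter I), ∃ a ∈ cut tail head Y,
        (∀ v, d U v ≤ d U (tail a) → v ∈ Y) ∧ d U (head a) = d U (tail a) + 1 := by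
      filter_upwards [hcone ⟨U0, hU0, hne, hU0B⟩] with U hU
      have hUY : U.1 ⊆ Y := hU.trans hU0Y
      obtain ⟨i, hi1, hi2⟩ : ∃ i, ball tail head L U.1 i ⊆ Y ∧
          ¬ ball tail head L U.1 (i + 1) ⊆ Y := by
        by_contra hcon
        push Not at hcon
        have hall : ∀ i, ball tail head L U.1 i ⊆ Y := by
          intro i
          induction i with
          | zero => exact hUY
          | succ i ih => exact hcon i ih
        exact hY.1.root (hall _ ((hmem U t _).2 le_rfl))
      have hi3 : ∃ a, tail a ∈ ball tail head L U.1 i ∧ head a ∉ Y := by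
        by_contra hcon
        push Not at hcon
        apply hi2
        apply K_sub hY
        rintro v (hv | ⟨a, ha, rfl⟩)
        · exact hi1 hv
        · exact hcon a ha
      obtain ⟨a, ha1, ha2⟩ := hi3
      have h1 : d U (tail a) ≤ i := (hmem U _ _).1 ha1
      have h2 : ¬ d U (head a) ≤ i := fun h => ha2 (hi1 ((hmem U _ _).2 h))
      have h3 : d U (head a) ≤ d U (tail a) + 1 := dst_head hroot hL U.2.1 U.2.2.1 a
      refine ⟨a, ⟨hi1 ha1, ha2⟩, fun v hv => hi1 ((hmem U _ _).2 (by omega)), by omega⟩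
    rw [Ultrafilter.eventually_exists_mem_iff hY.1.fin] at key
    obtain ⟨a, ha, key⟩ := key
    have hga : g (tail a) = g (head a) + 1 := by
      obtain ⟨U, ⟨h1, h2⟩, h3, h4⟩ := (((hg (tail a)).and (hg (head a))).and key).exists
      have := hdt U (head a)
      omega
    refine ⟨g (tail a), by omega, ?_, a, ⟨show g (tail a) ≤ g (tail a) from le_rfl, ?_⟩, ha⟩
    · intro v hv
      have hv' : g (tail a) ≤ g v := hv
      obtain ⟨U, ⟨h1, h2⟩, h3, h4⟩ := (((hg (tail a)).and (hg v)).and key).exists
      apply h3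
      have := hdt U v
      have := hdt U (tail a)
      omega
    · intro h
      have : g (tail a) ≤ g (head a) := h
      omega
  · intro j hj x hx
    have hxj : g x < j := not_le.1 hx
    by_cases hne : (lev g j).Nonempty
    swap
    · rw [Set.not_nonempty_iff_eq_empty] at hne
      exact ⟨∅, untouched_empty, hne.le, Set.notMem_empty x⟩
    obtain ⟨v0, hv0⟩ := hne
    have hv0' : j ≤ g v0 := hv0
    obtain ⟨N, hN⟩ : ∃ N : I, x ∉ N.1 := by
      by_contra hcon
      push Not at hcon
      obtain ⟨U, h1, h2⟩ := ((hg x).and (hg v0)).exists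
      have h3 : d U x ≤ 0 := (hmem U x 0).1 (hcon U)
      omega
    have hev : ∀ᶠ U in (𝒰 : Filter I), U.1 ⊆ N.1 ∧
        (∀ a ∈ cut tail head N.1, d U t - d U (tail a) = g (tail a)) ∧
        d U t - d U x = g x ∧ d U t - d U v0 = g v0 := by
      refine (hcone N).and (Filter.Eventually.and ?_ ((hg x).and (hg v0)))
      exact (Filter.eventually_all_finite N.2.1.1.fin).2 fun a _ => hg (tail a)
    obtain ⟨U1, hU1N, hU1a, hU1x, hU1v⟩ := hev.exists
    -- all balls have the same trace outside of `N`
    have hsame : ∀ U : I, U.1 ⊆ N.1 →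
        (∀ a ∈ cut tail head N.1, d U t - d U (tail a) = g (tail a)) → d U t - d U v0 = g v0 →
        ball tail head L U.1 (d U t - j) ∪ N.1 = ball tail head L U1.1 (d U1 t - j) ∪ N.1 := by
      intro U hUN hUa hUv
      rcases le_total (d U1 t) (d U t) with h | h
      · have := shift hroot hL hun N.2.1 U1.2.1 U.2.1 U1.2.2.1 U.2.2.1 hU1N hUN (d U t - d U1 t)
          (by
            intro a ha
            have h1 := hUa a ha
            have h2 := hU1a a ha
            have h3 := hdt U (tail a)
            have h4 := hdt U1 (tail a)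
            show d U (tail a) = d U1 (tail a) + _
            omega) (d U1 t - j)
        rwa [show d U1 t - j + (d U t - d U1 t) = d U t - j by omega] at this
      · have := shift hroot hL hun N.2.1 U.2.1 U1.2.1 U.2.2.1 U1.2.2.1 hUN hU1N (d U1 t - d U t)
          (by
            intro a ha
            have h1 := hUa a ha
            have h2 := hU1a a ha
            have h3 := hdt U (tail a)
            have h4 := hdt U1 (tail a)
            show d U1 (tail a) = d U (tail a) + _
            omega) (d U t - j)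
        rw [show d U t - j + (d U1 t - d U t) = d U1 t - j by omega] at this
        exact this.symm
    have hlev : lev g j ⊆ ball tail head L U1.1 (d U1 t - j) ∪ N.1 := by
      intro v hv
      have hv' : j ≤ g v := hv
      obtain ⟨U, ⟨h1, h2, h3, h4⟩, h5⟩ := (hev.and (hg v)).exists
      rw [← hsame U h1 h2 h4]
      left
      rw [hmem]
      have := hdt U v
      omega
    have hxb : x ∉ ball tail head L U1.1 (d U1 t - j) := by
      rw [hmem]
      have := hdt U1 x
      omega
    rcases Nat.eq_zero_or_pos (d U1 t - j) with h0 | h0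
    · rw [h0] at hlev
      refine ⟨N.1, N.2.1, hlev.trans (Set.union_subset hU1N subset_rfl), hN⟩
    · obtain ⟨i, hi⟩ := Nat.exists_eq_add_of_lt h0
      rw [Nat.zero_add] at hi
      rw [hi] at hlev hxb
      have hxb' : ∃ Z ∈ L, ball tail head L U1.1 i ∪
          {v | ∃ a, tail a ∈ ball tail head L U1.1 i ∧ head a = v} ⊆ Z ∧ x ∉ Z := by
        by_contra hcon
        push Not at hcon
        exact hxb fun Z hZ h => hcon Z hZ h
      obtain ⟨Z, hZ1, hZ2, hZ3⟩ := hxb'
      refine ⟨Z ∪ N.1, hun Z hZ1 N.1 N.2.1, ?_, fun h => h.elim hZ3 hN⟩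
      exact hlev.trans (Set.union_subset_union_left _ (K_sub hZ1 hZ2))

end Pool.Agent.LYS
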