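import Pool.Agent.LYS.Final

/-!
A binary tree of source sides in a countable weakly connected digraph gives uncountably many
directions.
-/

namespace Pool.Agent.LYS

open Pool.Agent.LYG (Conn IsComp PairAt HasPair FDicut Packing Pair con fdicut_con glue isComp_eq
  exists_isComp hasPair_of_sequences)

variable {V A : Type} {tail head : A → V}

/-- the initial segments of a branch -/
def seg (β : ℕ → Bool) : ℕ → List Bool
  | 0 => []
  | n + 1 => β n :: seg β n

theorem seg_congr {β γ : ℕ → Bool} {n : ℕ} (h : ∀ i < n, β i = γ i) : seg β n = seg γ n := by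
  induction n with
  | zero => rfl
  | succ n ih => rw [seg, seg, ih fun i hi => h i (by omega), h n (by omega)]

theorem seg_disjoint {X : List Bool → Set V}
    (h3 : ∀ σ, Disjoint (X (true :: σ)) (X (false :: σ))) {β γ : ℕ → Bool} (hne : β ≠ γ) :
    ∃ n, Disjoint (X (seg β n)) (X (seg γ n)) := by
  classical
  have hex : ∃ i, β i ≠ γ i := by
    by_contra h
    push Not at h
    exact hne (funext h)
  let n := Nat.find hex
  have hn : β n ≠ γ n := Nat.find_spec hex
  have hlt : ∀ i < n, β i = γ i := fun i hi => by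
    by_contra h
    exact Nat.find_min hex hi h
  refine ⟨n + 1, ?_⟩
  rw [seg, seg, seg_congr hlt]
  rcases hβ : β n with _ | _ <;> rcases hγ : γ n with _ | _
  · exact absurd (hβ.trans hγ.symm) hn
  · exact (h3 _).symm
  · exact h3 _
  · exact absurd (hβ.trans hγ.symm) hn

theorem gd_ne_univ {X : Set V} (h : Gd tail head X) : X ≠ Set.univ := by
  intro he
  obtain ⟨a, ha⟩ := h.ne
  rw [he] at ha
  exact ha.2 (Set.mem_univ _)

/-- a free branch gives a direction -/
theorem exists_direction (hconn : Conn tail head Set.univ) {Y : ℕ → Set V}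
    (hY : ∀ n, Gd tail head (Y n)) (hanti : ∀ m n, m ≤ n → Y n ⊆ Y m)
    (hempty : ∀ x, ∃ n, x ∉ Y n) :
    ∃ e, Direction tail head e ∧ ∀ S n, (e S ∩ Y n).Nonempty := by
  classical
  have hWC := wc_of_conn hconn
  have hYne : ∀ n, (Y n).Nonempty := fun n => by
    obtain ⟨a, ha⟩ := (hY n).ne
    exact ⟨_, ha.1⟩
  -- an ultrafilter through all `Y n`
  obtain ⟨𝒰, h𝒰⟩ : ∃ 𝒰 : Ultrafilter V, ∀ n, Y n ∈ 𝒰 := by
    have hne : (⨅ n, Filter.principal (Y n)).NeBot := by
      apply Filter.iInf_neBot_of_directed'
      · intro m n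
        exact ⟨max m n, Filter.principal_mono.2 (hanti _ _ (le_max_left _ _)),
          Filter.principal_mono.2 (hanti _ _ (le_max_right _ _))⟩
      · intro n
        exact Filter.principal_neBot_iff.2 (hYne n)
    refine ⟨Ultrafilter.of (⨅ n, Filter.principal (Y n)), fun n => ?_⟩
    exact Ultrafilter.of_le (⨅ n, Filter.principal (Y n))
      (Filter.mem_iInf_of_mem n (Filter.mem_principal_self _))
  have hmiss : ∀ S : Finset V, ∃ n, Y n ⊆ (S : Set V)ᶜ := by
    intro S
    induction S using Finset.induction_on with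
    | empty => exact ⟨0, by simp⟩
    | @insert x S _ ih =>
      obtain ⟨n, hn⟩ := ih
      obtain ⟨m, hm⟩ := hempty x
      refine ⟨max n m, fun y hy hyS => ?_⟩
      rw [Finset.coe_insert] at hyS
      rcases hyS with hyS | hyS
      · have h1 : y ∈ Y m := hanti _ _ (le_max_right _ _) hy
        rw [hyS] at h1
        exact hm h1
      · exact hn (hanti _ _ (le_max_left _ _) hy) hyS
  have hcomp : ∀ S : Finset V, ∃ C, IsComp tail head ((S : Set V)ᶜ) C ∧ C ∈ 𝒰 := by
    intro S
    obtain ⟨n, hn⟩ := hmiss S
    -- the component of a vertex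
    choose! c hc1 hc2 using fun (x : V) (hx : x ∈ (S : Set V)ᶜ) =>
      exists_isComp (tail := tail) (head := head) ((S : Set V)ᶜ) hx
    have hedge : ∀ x ∈ Y n, ∃ a ∈ cut tail head (Y n), tail a ∈ c x := by
      intro x hx
      have hcl : Closed tail head (c x ∩ Y n) := by
        rintro a ⟨h1, h2⟩
        have h3 := (hY n).closed a h2
        exact ⟨((hc1 x (hn hx)).adj a (hn h3) (hn h2)).2 h1, h3⟩
      have hcut : (cut tail head (c x ∩ Y n)).Nonempty := by
        rw [Set.nonempty_iff_ne_empty]
        intro he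
        have h1 := hWC (c x ∩ Y n) ⟨x, hc2 x (hn hx), hx⟩ hcl he
        apply gd_ne_univ (hY n)
        apply Set.eq_univ_of_forall
        intro z
        have : z ∈ c x ∩ Y n := by rw [h1]; exact Set.mem_univ z
        exact this.2
      obtain ⟨a, ha1, ha2⟩ := hcut
      refine ⟨a, ⟨ha1.2, fun h => ha2 ⟨?_, h⟩⟩, ha1.1⟩
      exact ((hc1 x (hn hx)).adj a (hn ha1.2) (hn h)).1 ha1.1
    have hfin : (c '' (tail '' cut tail head (Y n))).Finite := ((hY n).fin.image _).image _
    have hcov : (⋃ C ∈ c '' (tail '' cut tail head (Y n)), C) ∈ 𝒰 := by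
      apply Filter.mem_of_superset (h𝒰 n)
      intro x hx
      obtain ⟨a, ha, hac⟩ := hedge x hx
      have h1 : c x = c (tail a) :=
        isComp_eq (hc1 x (hn hx)) (hc1 _ (hn ha.1)) ⟨tail a, hac, hc2 _ (hn ha.1)⟩
      refine Set.mem_biUnion (show c x ∈ c '' (tail '' cut tail head (Y n)) from
        ⟨tail a, ⟨a, ha, rfl⟩, h1.symm⟩) (hc2 x (hn hx))
    rw [Ultrafilter.finite_biUnion_mem_iff hfin] at hcov
    obtain ⟨_, ⟨_, ⟨a, ha, rfl⟩, rfl⟩, hC⟩ := hcov
    exact ⟨_, hc1 _ (hn ha.1), hC⟩
  choose e he1 he2 using hcomp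
  refine ⟨e, ⟨he1, ?_⟩, ?_⟩
  · intro S S' hSS
    apply sub_comp (he1 S) (he1 S').conn
    · refine (he1 S').sub.trans (Set.compl_subset_compl.2 ?_)
      exact_mod_cast hSS
    · exact Ultrafilter.nonempty_of_mem (Filter.inter_mem (he2 S') (he2 S))
  · intro S n
    exact Ultrafilter.nonempty_of_mem (Filter.inter_mem (he2 S) (h𝒰 n))

/-- countably many directions exclude binary trees of source sides -/
theorem no_tree_of_countable [Countable V] (hconn : Conn tail head Set.univ) {K : Set V}
    {S₀ : Finset V} (hK : IsComp tail head ((S₀ : Set V)ᶜ) K)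
    (hcount : {e | Direction tail head e ∧ e S₀ = K}.Countable) :
    ¬ BTree (Gd tail head) K := by
  classical
  rintro ⟨X, h1, h2, h3⟩
  let Bad : Set (ℕ → Bool) := {β | ∃ x, ∀ n, x ∈ X (seg β n)}
  have hanti : ∀ β m n, m ≤ n → X (seg β n) ⊆ X (seg β m) := by
    intro β m n h
    induction h with
    | refl => exact subset_rfl
    | step _ ih => exact (h2 _ _).trans ih
  obtain ⟨a0, _⟩ := (h1 []).1.ne
  have hneV : Nonempty V := ⟨tail a0⟩
  have hbad : Bad.Countable := by
    choose! x hx using fun (β : ℕ → Bool) (hβ : β ∈ Bad) =>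
      (hβ : ∃ x, ∀ n, x ∈ X (seg β n))
    apply Set.countable_of_injective_of_countable_image (f := x)
    · intro β hβ γ hγ he
      by_contra hne
      obtain ⟨n, hn⟩ := seg_disjoint h3 hne
      exact Set.disjoint_left.1 hn (hx β hβ n) (by rw [he]; exact hx γ hγ n)
    · exact Set.to_countable _
  have hgood : Badᶜ.Countable := by
    have hex : ∀ β ∈ Badᶜ, ∃ e, Direction tail head e ∧ ∀ S n, (e S ∩ X (seg β n)).Nonempty := by
      intro β hβ
      apply exists_direction hconn (fun n => (h1 _).1) (hanti β)
      intro x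
      by_contra hcon
      push Not at hcon
      exact hβ ⟨x, hcon⟩
    choose! e he1 he2 using hex
    apply Set.countable_of_injective_of_countable_image (f := e)
    · intro β hβ γ hγ he
      by_contra hne
      obtain ⟨n, hn⟩ := seg_disjoint h3 hne
      -- the end vertices of the cut
      let S : Finset V := ((h1 (seg β n)).1.fin.image tail).toFinset
      have hS : ∀ a ∈ cut tail head (X (seg β n)), tail a ∈ S := by
        intro a ha
        rw [Set.Finite.mem_toFinset]
        exact ⟨a, ha, rfl⟩
      have hcomp := (he1 β hβ).1 S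
      -- the component lies inside of the side
      have hin : e β S ⊆ X (seg β n) := by
        have h4 : e β S ∩ X (seg β n) = e β S := by
          apply hcomp.conn _ Set.inter_subset_left (he2 β hβ S n)
          intro a ha1 ha2
          constructor
          · rintro ⟨_, h⟩
            refine ⟨ha2, ?_⟩
            by_contra h5
            exact hcomp.sub ha1 (hS a ⟨h, h5⟩)
          · rintro ⟨_, h⟩
            exact ⟨ha1, (h1 (seg β n)).1.closed a h⟩
        rw [← h4]
        exact Set.inter_subset_right
      obtain ⟨z, hz1, hz2⟩ := he2 γ hγ S n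
      rw [← he] at hz1
      exact Set.disjoint_left.1 hn (hin hz1) hz2
    · apply hcount.mono
      rintro _ ⟨β, hβ, rfl⟩
      refine ⟨he1 β hβ, ?_⟩
      obtain ⟨z, hz1, hz2⟩ := he2 β hβ S₀ 0
      exact isComp_eq ((he1 β hβ).1 S₀) hK ⟨z, hz1, (h1 _).2 hz2⟩
  have huniv : (Set.univ : Set (ℕ → Bool)).Countable := by
    rw [← Set.union_compl_self Bad]
    exact hbad.union hgood
  have hunc : ¬ Countable (ℕ → Bool) := by
    rw [← Cardinal.mk_le_aleph0_iff, not_le]
    simpa using Cardinal.aleph0_lt_continuum
  exact hunc (Set.countable_univ_iff.1 huniv)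

theorem direction_rev {e : Finset V → Set V} (h : Direction tail head e) :
    Direction head tail e := by
  refine ⟨fun S => ⟨(h.1 S).sub, (h.1 S).ne, conn_rev (h.1 S).conn, fun a h1 h2 => ?_⟩, h.2⟩
  exact ((h.1 S).adj a h2 h1).symm

theorem direction_iff_rev {e : Finset V → Set V} :
    Direction head tail e ↔ Direction tail head e := ⟨direction_rev, direction_rev⟩

/-- The component `K` of `D - S` is one-sided: it contains no infinite family of disjoint sink
sides, and it has only countably many ends or no binary tree of source sides; or this holds with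
sources and sinks exchanged. -/
def OneSided' (tail head : A → V) (S : Finset V) (K : Set V) : Prop :=
  (Few (Gd head tail) K ∧
    ({e | Direction tail head e ∧ e S = K}.Countable ∨ ¬ BTree (Gd tail head) K)) ∨
  (Few (Gd tail head) K ∧
    ({e | Direction tail head e ∧ e S = K}.Countable ∨ ¬ BTree (Gd head tail) K))

/-- **The local theorem.** -/
theorem hasPair_of_ends [Countable V] (hconn : Conn tail head Set.univ)
    (h : ∀ e, Direction tail head e → ∃ S, OneSided' tail head S (e S)) :
    HasPair tail head := by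
  apply hasPair_of_directions hconn
  intro e he
  obtain ⟨S, ⟨hS, h1⟩ | ⟨hS, h1⟩⟩ := h e he
  · refine ⟨S, Or.inl ⟨hS, ?_⟩⟩
    rcases h1 with h1 | h1
    · exact no_tree_of_countable hconn (he.1 S) h1
    · exact h1
  · refine ⟨S, Or.inr ⟨hS, ?_⟩⟩
    rcases h1 with h1 | h1
    · apply no_tree_of_countable (conn_rev hconn) ((direction_rev he).1 S)
      simpa only [direction_iff_rev] using h1
    · exact h1

end Pool.Agent.LYS
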