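import Pool.Agent.LYS.Basic

/-!
The extension step: a Busemann function at an isolated point of the untouched sides extends a
partial scheme.
-/

namespace Pool.Agent.LYS

variable {V A : Type*} {tail head : A → V} {t : V}

/-- `B` isolates one point: nonempty untouched sides inside `B` meet pairwise -/
structure Iso (tail head : A → V) (t : V) (S : Set (Set V)) (B : Set V) : Prop where
  unt : Untouched tail head t S B
  ne : B.Nonempty
  meet : ∀ X Y, Untouched tail head t S X → Untouched tail head t S Y → X.Nonempty → Y.Nonempty →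
    X ⊆ B → Y ⊆ B → (X ∩ Y).Nonempty

/-- level sets -/
def lev (g : V → ℕ) (j : ℕ) : Set V := {v | j ≤ g v}

/-- a Busemann function at `B` -/
structure Bus (tail head : A → V) (t : V) (S : Set (Set V)) (B : Set V) (g : V → ℕ) : Prop where
  root : g t = 0
  mono : ∀ a, g (head a) ≤ g (tail a)
  lip : ∀ a, g (tail a) ≤ g (head a) + 1
  touch : ∀ Y U, Untouched tail head t S Y → Untouched tail head t S U → U.Nonempty → U ⊆ B →
    U ⊆ Y → ∃ j, 1 ≤ j ∧ lev g j ⊆ Y ∧ Touch tail head (lev g j) Y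
  near : ∀ j, 1 ≤ j → NearU tail head t S (lev g j)

/-- the new members -/
def newm (B : Set V) (g : V → ℕ) : Set (Set V) :=
  {Q | ∃ j, 1 ≤ j ∧ Q = lev g j ∧ Q ⊆ B ∧ Q.Nonempty}

section

variable {S : Set (Set V)} {B : Set V} {g : V → ℕ}

theorem lev_mono {i j : ℕ} (h : i ≤ j) : lev g j ⊆ lev g i := fun _ hv => le_trans h hv

theorem mem_cut_lev (hg : Bus tail head t S B g) {j : ℕ} {a : A} :
    a ∈ cut tail head (lev g j) ↔ g (tail a) = j ∧ g (head a) + 1 = j := by
  have h1 := hg.lip a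
  have h2 := hg.mono a
  simp only [cut, lev, Set.mem_ofPred_eq]
  omega

theorem finite_near {Q : Set V} (hQ : NearU tail head t S Q) {T : Set (Set V)} (hT : T.Finite)
    (x : V) (hx : x ∉ Q) :
    ∃ Z, Untouched tail head t S Z ∧ Q ⊆ Z ∧ x ∉ Z ∧ ∀ P ∈ T, P ⊆ Z → P ⊆ Q := by
  induction T, hT using Set.Finite.induction_on with
  | empty =>
    obtain ⟨Z, h1, h2, h3⟩ := hQ x hx
    exact ⟨Z, h1, h2, h3, fun P hP => absurd hP (Set.notMem_empty P)⟩
  | insert _ _ ih =>
    rename_i P T' _ _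
    obtain ⟨Z, h1, h2, h3, h4⟩ := ih
    by_cases hPQ : P ⊆ Q
    · refine ⟨Z, h1, h2, h3, ?_⟩
      rintro P' (rfl | hP') h5
      · exact hPQ
      · exact h4 P' hP' h5
    · obtain ⟨y, hy1, hy2⟩ := Set.not_subset.1 hPQ
      obtain ⟨Z', h5, h6, h7⟩ := hQ y hy2
      refine ⟨Z ∩ Z', h1.inter h5, Set.subset_inter h2 h6, fun h => h3 h.1, ?_⟩
      rintro P' (rfl | hP') h8
      · exact absurd (h8 hy1).2 h7
      · exact h4 P' hP' (h8.trans Set.inter_subset_left)

/-- minimal new member touching an untouched side is inside -/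
theorem min_unt (hB : Iso tail head t S B) (hg : Bus tail head t S B g) {Y : Set V}
    (hY : Untouched tail head t S Y) {Q : Set V} (hQ : Q ∈ newm B g) (hQY : Touch tail head Q Y)
    (hmin : ∀ R ∈ newm B g, Touch tail head R Y → R ⊆ Q → R = Q) : Q ⊆ Y := by
  obtain ⟨j, hj1, rfl, hjB, hjne⟩ := hQ
  have hne : (Y ∩ B).Nonempty := by
    obtain ⟨a, ha1, ha2⟩ := hQY
    exact ⟨tail a, ha2.1, hjB ha1.1⟩
  obtain ⟨i, hi1, hi2, hi3⟩ := hg.touch Y (Y ∩ B) hY (hY.inter hB.unt) hne Set.inter_subset_right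
    Set.inter_subset_left
  rcases le_total i j with h | h
  · exact (lev_mono h).trans hi2
  · have h1 : lev g i ∈ newm B g := by
      refine ⟨i, hi1, rfl, (lev_mono h).trans hjB, ?_⟩
      obtain ⟨a, ha, _⟩ := hi3
      exact ⟨tail a, ha.1⟩
    rw [← hmin _ h1 hi3 (lev_mono h)]
    exact hi2

/-- the extension step -/
theorem extend (hS : PScheme tail head t S) (hB : Iso tail head t S B)
    (hg : Bus tail head t S B g) : PScheme tail head t (S ∪ newm B g) := by
  have hclosed : ∀ j, Closed tail head (lev g j) := fun j a h => le_trans h (hg.mono a)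
  have hold : ∀ j, 1 ≤ j → ∀ P ∈ S, ∀ a, a ∈ cut tail head (lev g j) → a ∉ cut tail head P := by
    intro j hj P hP a ha haP
    obtain ⟨Z, h1, h2, h3⟩ := hg.near j hj (head a) ha.2
    exact h1.2 P hP ⟨a, haP, h2 ha.1, h3⟩
  refine ⟨?_, ?_, ?_, ?_, ?_, ?_⟩
  · rintro P (hP | ⟨j, _, rfl, _, _⟩)
    · exact hS.closed P hP
    · exact hclosed j
  · rintro P (hP | ⟨j, _, rfl, _, h⟩)
    · exact hS.ne P hP
    · exact h
  · rintro P (hP | ⟨j, hj, rfl, _, h⟩)
    · exact hS.root P hP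
    · intro h1
      have : j ≤ g t := h1
      rw [hg.root] at this
      omega
  · rintro P (hP | ⟨j, hj, rfl, _, h⟩) Q (hQ | ⟨i, hi, rfl, _, h'⟩) hne a ha haQ
    · exact hS.disj P hP Q hQ hne a ha haQ
    · exact hold i hi P hP a haQ ha
    · exact hold j hj Q hQ a ha haQ
    · rw [mem_cut_lev hg] at ha haQ
      apply hne
      rw [← ha.1, ← haQ.1]
  · intro Y hY P hP hPY hmin
    rcases hP with hP | hP
    · exact hS.min Y hY P hP hPY fun Q hQ => hmin Q (Or.inl hQ)
    · have hPnew := hP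
      obtain ⟨j, hj, rfl, hjB, hjne⟩ := hP
      obtain ⟨a, ha1, ha2⟩ := hPY
      obtain ⟨Z, hZ1, hZ2, hZ3, hZ4⟩ := finite_near (hg.near j hj)
        (finite_touch hS.disj hY.fin) (head a) ha1.2
      have haYZ : a ∈ cut tail head (Y ∩ Z) := ⟨⟨ha2.1, hZ2 ha1.1⟩, fun h => hZ3 h.2⟩
      by_cases hU : ∃ R ∈ S, Touch tail head R (Y ∩ Z)
      · obtain ⟨R, hR1, hR2, hR3, _⟩ := hS.exists_min (hY.inter hZ1.1) hU
        have hRY : Touch tail head R Y := by
          rcases hR2.inter with h | h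
          · exact h
          · exact absurd h (hZ1.2 R hR1)
        have hRP : R ⊆ lev g j := hZ4 R ⟨hR1, hRY⟩ (hR3.trans Set.inter_subset_right)
        rw [← hmin R (Or.inl hR1) hRY hRP]
        exact hR3.trans Set.inter_subset_left
      · have hYZ : Untouched tail head t S (Y ∩ Z) :=
          ⟨hY.inter hZ1.1, fun R hR h => hU ⟨R, hR, h⟩⟩
        refine (min_unt hB hg hYZ hPnew ⟨a, ha1, haYZ⟩ ?_).trans Set.inter_subset_left
        intro R hR hRYZ hRP
        rcases hRYZ.inter with h | h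
        · exact hmin R (Or.inr hR) h hRP
        · obtain ⟨i, hi, rfl, _, _⟩ := hR
          obtain ⟨b, hb1, hb2⟩ := h
          have hb3 : b ∈ cut tail head (lev g j) := ⟨hRP hb1.1, fun h => hb2.2 (hZ2 h)⟩
          rw [mem_cut_lev hg] at hb1 hb3
          rw [← hb1.1, ← hb3.1]
  · rintro P (hP | ⟨j, hj, rfl, hjB, hjne⟩) x hx
    · obtain ⟨Z, h1, h2, h3, h4, h5⟩ := hS.near P hP x hx
      refine ⟨Z, h1, h2, h3, ?_, ?_⟩
      · rintro Q (hQ | ⟨i, hi, rfl, _, _⟩) hQZ
        · exact h4 Q hQ hQZ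
        · exact near_ext hS h1 h4 h5 (hg.near i hi) hQZ
      · intro Y hY hYZ hYne
        obtain ⟨Q, hQ, hQY⟩ := h5 Y hY hYZ hYne
        exact ⟨Q, Or.inl hQ, hQY⟩
    · obtain ⟨Z, h1, h2, h3⟩ := hg.near j hj x hx
      refine ⟨Z ∩ B, h1.1.inter hB.unt.1, Set.subset_inter h2 hjB, fun h => h3 h.1, ?_, ?_⟩
      · rintro Q (hQ | ⟨i, hi, rfl, _, _⟩) hQZ
        · rcases hQZ.inter with h | h
          · exact absurd h (h1.2 Q hQ)
          · exact absurd h (hB.unt.2 Q hQ)
        · rcases le_total i j with hij | hij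
          · exact lev_mono hij
          · obtain ⟨b, hb1, hb2⟩ := hQZ
            have hb3 : b ∈ cut tail head (lev g j) := by
              refine ⟨lev_mono hij hb1.1, fun h => ?_⟩
              exact hb2.2 ⟨h2 h, hjB h⟩
            rw [mem_cut_lev hg] at hb1 hb3
            have : i = j := by rw [← hb1.1, ← hb3.1]
            rw [this]
      · intro Y hY hYZ hYne
        by_cases hU : ∃ R ∈ S, Touch tail head R Y
        · obtain ⟨R, hR1, hR2⟩ := hU
          exact ⟨R, Or.inl hR1, hR2⟩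
        · have hYU : Untouched tail head t S Y := ⟨hY, fun R hR h => hU ⟨R, hR, h⟩⟩
          have hYB : Y ⊆ B := hYZ.trans Set.inter_subset_right
          obtain ⟨i, hi1, hi2, hi3⟩ := hg.touch Y Y hYU hYU hYne hYB subset_rfl
          refine ⟨lev g i, Or.inr ⟨i, hi1, rfl, hi2.trans hYB, ?_⟩, hi3⟩
          obtain ⟨b, hb, _⟩ := hi3
          exact ⟨tail b, hb.1⟩

/-- the order on partial schemes -/
def Le (tail head : A → V) (t : V) (S S' : Set (Set V)) : Prop :=
  S ⊆ S' ∧ ∀ Q ∈ S', Q ∉ S → NearU tail head t S Q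

theorem Le.trans {S S' S'' : Set (Set V)} (h : Le tail head t S S') (h' : Le tail head t S' S'') :
    Le tail head t S S'' := by
  refine ⟨h.1.trans h'.1, fun Q hQ hQS => ?_⟩
  by_cases hQ' : Q ∈ S'
  · exact h.2 Q hQ' hQS
  · intro x hx
    obtain ⟨Z, h1, h2, h3⟩ := h'.2 Q hQ hQ' x hx
    exact ⟨Z, h1.mono h.1, h2, h3⟩

theorem extend_le (hg : Bus tail head t S B g) : Le tail head t S (S ∪ newm B g) := by
  refine ⟨Set.subset_union_left, ?_⟩
  rintro Q (hQ | ⟨j, hj, rfl, _, _⟩) hQS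
  · exact absurd hQ hQS
  · exact hg.near j hj

/-- unions of chains -/
theorem chain_scheme {c : Set (Set (Set V))} (hc : ∀ S ∈ c, PScheme tail head t S)
    (hch : IsChain (Le tail head t) c) :
    PScheme tail head t (⋃₀ c) ∧ ∀ S ∈ c, Le tail head t S (⋃₀ c) := by
  have hle : ∀ S ∈ c, Le tail head t S (⋃₀ c) := by
    intro S hS
    refine ⟨Set.subset_sUnion_of_mem hS, ?_⟩
    rintro Q ⟨S', hS', hQ⟩ hQS
    rcases eq_or_ne S S' with rfl | hne
    · exact absurd hQ hQS
    · rcases hch hS hS' hne with h | h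
      · exact h.2 Q hQ hQS
      · exact absurd (h.1 hQ) hQS
  have hdir : ∀ T : Set (Set V), T.Finite → T.Nonempty → T ⊆ ⋃₀ c → ∃ S ∈ c, T ⊆ S := by
    intro T hT
    induction T, hT using Set.Finite.induction_on with
    | empty => intro h; exact absurd h Set.not_nonempty_empty
    | insert _ _ ih =>
      rename_i P T' _ _
      intro _ hsub
      obtain ⟨S1, hS1, hP1⟩ := hsub (Set.mem_insert P T')
      rcases T'.eq_empty_or_nonempty with rfl | hne
      · refine ⟨S1, hS1, ?_⟩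
        rintro Q (rfl | hQ)
        · exact hP1
        · exact absurd hQ (Set.notMem_empty Q)
      · obtain ⟨S2, hS2, hT2⟩ := ih hne ((Set.subset_insert P T').trans hsub)
        rcases eq_or_ne S1 S2 with rfl | hne12
        · exact ⟨S1, hS1, Set.insert_subset hP1 hT2⟩
        · rcases hch hS1 hS2 hne12 with h | h
          · exact ⟨S2, hS2, Set.insert_subset (h.1 hP1) hT2⟩
          · exact ⟨S1, hS1, Set.insert_subset hP1 (hT2.trans h.1)⟩
  have hdisj : ∀ P ∈ ⋃₀ c, ∀ Q ∈ ⋃₀ c, P ≠ Q → ∀ a, a ∈ cut tail head P →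
      a ∉ cut tail head Q := by
    intro P hP Q hQ hne
    obtain ⟨S, hS, hsub⟩ := hdir {P, Q} (by simp) (by simp)
      (by rintro R (rfl | rfl); exacts [hP, hQ])
    exact (hc S hS).disj P (hsub (by simp)) Q (hsub (by simp)) hne
  refine ⟨⟨?_, ?_, ?_, hdisj, ?_, ?_⟩, hle⟩
  · rintro P ⟨S, hS, hP⟩
    exact (hc S hS).closed P hP
  · rintro P ⟨S, hS, hP⟩
    exact (hc S hS).ne P hP
  · rintro P ⟨S, hS, hP⟩
    exact (hc S hS).root P hP
  · intro Y hY P hP hPY hmin
    have hfin := finite_touch hdisj hY.fin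
    obtain ⟨S, hS, hsub⟩ := hdir _ hfin ⟨P, hP, hPY⟩ (fun Q hQ => hQ.1)
    exact (hc S hS).min Y hY P (hsub ⟨hP, hPY⟩) hPY
      fun Q hQ hQY => hmin Q ⟨S, hS, hQ⟩ hQY
  · rintro P ⟨S, hS, hP⟩ x hx
    obtain ⟨Z, h1, h2, h3, h4, h5⟩ := (hc S hS).near P hP x hx
    refine ⟨Z, h1, h2, h3, ?_, ?_⟩
    · intro Q hQ hQZ
      by_cases hQS : Q ∈ S
      · exact h4 Q hQS hQZ
      · exact near_ext (hc S hS) h1 h4 h5 ((hle S hS).2 Q hQ hQS) hQZ
    · intro Y hY hYZ hYne
      obtain ⟨Q, hQ, hQY⟩ := h5 Y hY hYZ hYne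
      exact ⟨Q, ⟨S, hS, hQ⟩, hQY⟩

theorem empty_scheme : PScheme tail head t (∅ : Set (Set V)) := by
  refine ⟨?_, ?_, ?_, ?_, ?_, ?_⟩ <;> intros <;> simp_all

end

/-- complete schemes exist if isolating sides and Busemann functions exist -/
theorem exists_scheme
    (hiso : ∀ S : Set (Set V), PScheme tail head t S →
      (∃ Y, Untouched tail head t S Y ∧ Y.Nonempty) → ∃ B g, Iso tail head t S B ∧
        Bus tail head t S B g) :
    ∃ S : Set (Set V), PScheme tail head t S ∧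
      ∀ Y, Side tail head t Y → Y.Nonempty → ∃ P ∈ S, Touch tail head P Y := by
  obtain ⟨⟨S, hS⟩, hmax⟩ := exists_maximal_of_chains_bounded
    (r := fun (S S' : {S : Set (Set V) // PScheme tail head t S}) => Le tail head t S.1 S'.1)
    (by
      intro c hc
      have h := chain_scheme (tail := tail) (head := head) (t := t)
        (c := (fun S : {S : Set (Set V) // PScheme tail head t S} => S.1) '' c)
        (by rintro S ⟨S', _, rfl⟩; exact S'.2)
        (by
          rintro S ⟨S', hS', rfl⟩ T ⟨T', hT', rfl⟩ hne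
          exact hc hS' hT' (fun h => hne (by rw [h])))
      exact ⟨⟨_, h.1⟩, fun S hS => h.2 S.1 ⟨S, hS, rfl⟩⟩)
    (fun h h' => h.trans h')
  refine ⟨S, hS, fun Y hY hYne => ?_⟩
  by_contra hcon
  push Not at hcon
  obtain ⟨B, g, hB, hg⟩ := hiso S hS ⟨Y, ⟨hY, hcon⟩, hYne⟩
  have h1 := hmax ⟨_, extend hS hB hg⟩ (extend_le hg)
  obtain ⟨j, hj1, hj2, hj3⟩ := hg.touch B B hB.unt hB.unt hB.ne subset_rfl subset_rfl
  have h2 : lev g j ∈ newm B g := by
    refine ⟨j, hj1, rfl, hj2, ?_⟩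
    obtain ⟨b, hb, _⟩ := hj3
    exact ⟨tail b, hb.1⟩
  exact hB.unt.2 _ (h1.1 (Or.inr h2)) hj3

end Pool.Agent.LYS
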