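import Pool.Agent.LYS.Sink

/-!
The infinite Lucchesi-Younger conjecture for countable digraphs all of whose ends are one-sided.
-/

namespace Pool.Agent.LYS

open Pool.Agent.LYG (Conn IsComp PairAt HasPair FDicut Packing Pair con fdicut_con glue isComp_eq
  exists_isComp hasPair_of_sequences)

variable {V A : Type} {tail head : A → V}

/-- No sequence of pairwise disjoint `P`-sets inside `K`. -/
def Few (P : Set V → Prop) (K : Set V) : Prop :=
  ¬ ∃ Y : ℕ → Set V, (∀ n, P (Y n) ∧ Y n ⊆ K) ∧ ∀ m n, m ≠ n → Disjoint (Y m) (Y n)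

/-- A binary tree of `P`-sets inside `K`. -/
def BTree (P : Set V → Prop) (K : Set V) : Prop :=
  ∃ X : List Bool → Set V, (∀ σ, P (X σ) ∧ X σ ⊆ K) ∧ (∀ σ b, X (b :: σ) ⊆ X σ) ∧
    ∀ σ, Disjoint (X (true :: σ)) (X (false :: σ))

theorem Few.mono {P : Set V → Prop} {K K' : Set V} (h : Few P K) (hK : K' ⊆ K) : Few P K' :=
  fun ⟨Y, h1, h2⟩ => h ⟨Y, fun n => ⟨(h1 n).1, (h1 n).2.trans hK⟩, h2⟩

theorem BTree.mono {P : Set V → Prop} {K K' : Set V} (h : BTree P K') (hK : K' ⊆ K) :
    BTree P K := by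
  obtain ⟨X, h1, h2⟩ := h
  exact ⟨X, fun n => ⟨(h1 n).1, (h1 n).2.trans hK⟩, h2⟩

theorem fdicut_rev {S : Set A} (h : FDicut tail head S) : FDicut head tail S := by
  obtain ⟨h1, h2, X, h3, h4⟩ := h
  refine ⟨h1, h2, Xᶜ, fun a ha hb => ha (h3 a hb), ?_⟩
  rw [h4]
  ext a
  simp only [Set.mem_ofPred_eq, Set.mem_compl_iff, not_not]
  exact and_comm

theorem hasPair_rev (h : HasPair tail head) : HasPair head tail := by
  obtain ⟨C, F, hp⟩ := h
  exact ⟨C, F, ⟨fun S hS => fdicut_rev (hp.packing.dicut S hS), hp.packing.disj⟩, hp.sub, hp.one,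
    fun S hS => hp.meets S (fdicut_rev hS)⟩

theorem conn_rev {X : Set V} (h : Conn tail head X) : Conn head tail X :=
  fun S hS hne hadj => h S hS hne fun a h1 h2 => (hadj a h2 h1).symm

/-- trees of closed sets give trees of source sides -/
theorem tree_gd (hconn : Conn tail head Set.univ) {K : Set V} (h : Tree tail head K) :
    BTree (Gd tail head) K := by
  obtain ⟨X, h1, h2, h3⟩ := h
  have hWC := wc_of_conn hconn
  have hsub : ∀ σ, X (σ ++ [true]) ⊆ X [true] := by
    intro σ
    induction σ with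
    | nil => exact subset_rfl
    | cons b σ ih => exact (h2 (σ ++ [true]) b).trans ih
  refine ⟨fun σ => X (σ ++ [true]), fun σ => ⟨⟨(h1 _).1, (h1 _).2.1, ?_⟩, (h1 _).2.2.2⟩,
    fun σ b => h2 (σ ++ [true]) b, fun σ => h3 (σ ++ [true])⟩
  rw [Set.nonempty_iff_ne_empty]
  intro he
  have h4 := hWC _ (h1 _).2.2.1 (h1 _).1 he
  obtain ⟨z, hz⟩ := (h1 [false]).2.2.1
  have h5 : z ∈ X [true] := hsub σ (by rw [h4]; exact Set.mem_univ z)
  exact Set.disjoint_left.1 (h3 []) h5 hz

/-- `K` is one-sided. -/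
def OneSided (tail head : A → V) (K : Set V) : Prop :=
  (Few (Gd head tail) K ∧ ¬ BTree (Gd tail head) K) ∨
    (Few (Gd tail head) K ∧ ¬ BTree (Gd head tail) K)

theorem OneSided.mono {K K' : Set V} (h : OneSided tail head K) (hK : K' ⊆ K) :
    OneSided tail head K' := by
  rcases h with h | h
  · exact Or.inl ⟨h.1.mono hK, fun h' => h.2 (h'.mono hK)⟩
  · exact Or.inr ⟨h.1.mono hK, fun h' => h.2 (h'.mono hK)⟩

theorem sk_gd {Y : Set V} (h : Sk tail head Y) : Gd head tail Y := ⟨h.closed, h.fin, h.ne⟩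

theorem few_sinks {K : Set V} (h : Few (Gd head tail) K) : FewSinks tail head K :=
  fun ⟨Y, h1, h2⟩ => h ⟨Y, fun n => ⟨sk_gd (h1 n).1, (h1 n).2⟩, h2⟩

theorem pairAt_oneSided [Countable V] (hconn : Conn tail head Set.univ) {K : Set V}
    (hK : OneSided tail head K) : PairAt tail head K := by
  rcases hK with ⟨h1, h2⟩ | ⟨h1, h2⟩
  · exact pairAt_few hconn K (few_sinks h1) fun h => h2 (tree_gd hconn h)
  · exact hasPair_rev (pairAt_few (conn_rev hconn) K (few_sinks h1)
      fun h => h2 (tree_gd (conn_rev hconn) h))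

/-- a connected set meeting a component is inside it -/
theorem sub_comp {W K C : Set V} (hK : IsComp tail head W K) (hC : Conn tail head C) (hCW : C ⊆ W)
    (hne : (C ∩ K).Nonempty) : C ⊆ K := by
  have : C ∩ K = C := by
    apply hC _ Set.inter_subset_left hne
    intro a h1 h2
    have := hK.adj a (hCW h1) (hCW h2)
    exact ⟨fun h => ⟨h2, this.1 h.2⟩, fun h => ⟨h1, this.2 h.2⟩⟩
  rw [← this]
  exact Set.inter_subset_right

/-- A direction (end): a component of `D - S` for every finite vertex set `S`, compatibly. -/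
def Direction (tail head : A → V) (e : Finset V → Set V) : Prop :=
  (∀ S : Finset V, IsComp tail head ((S : Set V)ᶜ) (e S)) ∧ ∀ S S' : Finset V, S ⊆ S' → e S' ⊆ e S

/-- **The local theorem.** -/
theorem hasPair_of_directions [Countable V] (hconn : Conn tail head Set.univ)
    (h : ∀ e, Direction tail head e → ∃ S, OneSided tail head (e S)) : HasPair tail head := by
  classical
  rcases isEmpty_or_nonempty V with hV | hV
  · refine ⟨∅, ∅, ⟨fun S hS => absurd hS (Set.notMem_empty S), fun S hS => absurd hS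
      (Set.notMem_empty S)⟩, Set.empty_subset _, fun S hS => absurd hS (Set.notMem_empty S), ?_⟩
    rintro S ⟨_, ⟨a, _⟩, _⟩
    exact (hV.false (tail a)).elim
  obtain ⟨v, hv⟩ := exists_surjective_nat V
  apply hasPair_of_sequences hconn v
  intro K hK0 hK
  have hanti : ∀ m n, m ≤ n → K n ⊆ K m := by
    intro m n hmn
    induction hmn with
    | refl => exact subset_rfl
    | step _ ih => exact fun x hx => ih ((hK _).sub hx).1
  have hKc : ∀ n, Conn tail head (K n) ∧ (K n).Nonempty := by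
    intro n
    cases n with
    | zero =>
      rw [hK0]
      exact ⟨hconn, ⟨v 0, Set.mem_univ _⟩⟩
    | succ n => exact ⟨(hK n).conn, (hK n).ne⟩
  have hmiss : ∀ S : Finset V, ∃ n, K n ⊆ (S : Set V)ᶜ := by
    intro S
    induction S using Finset.induction_on with
    | empty => exact ⟨0, by simp⟩
    | @insert x S _ ih =>
      obtain ⟨n, hn⟩ := ih
      obtain ⟨m, hm⟩ := hv x
      refine ⟨max n (m + 1), fun y hy hyS => ?_⟩
      rw [Finset.coe_insert] at hyS
      rcases hyS with hyS | hyS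
      · have h1 : y ∈ K (m + 1) := hanti _ _ (le_max_right _ _) hy
        have h2 := ((hK m).sub h1).2
        rw [hm] at h2
        exact h2 hyS
      · exact hn (hanti _ _ (le_max_left _ _) hy) hyS
  choose n hn using hmiss
  have hex : ∀ S : Finset V, ∃ C, IsComp tail head ((S : Set V)ᶜ) C ∧ K (n S) ⊆ C := by
    intro S
    obtain ⟨x, hx⟩ := (hKc (n S)).2
    obtain ⟨C, hC1, hC2⟩ := exists_isComp (tail := tail) (head := head) ((S : Set V)ᶜ) (hn S hx)
    exact ⟨C, hC1, sub_comp hC1 (hKc (n S)).1 (hn S) ⟨x, hx, hC2⟩⟩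
  choose e he1 he2 using hex
  obtain ⟨S, hS⟩ := h e ⟨he1, by
    intro S S' hSS
    apply sub_comp (he1 S) (he1 S').conn
    · refine (he1 S').sub.trans (Set.compl_subset_compl.2 ?_)
      exact_mod_cast hSS
    · obtain ⟨x, hx⟩ := (hKc (max (n S) (n S'))).2
      exact ⟨x, he2 S' (hanti _ _ (le_max_right _ _) hx), he2 S (hanti _ _ (le_max_left _ _) hx)⟩⟩
  exact ⟨n S, pairAt_oneSided hconn (hS.mono (he2 S))⟩

end Pool.Agent.LYS
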