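import Pool.Agent.LYL.Ext

/-!
The linear case of the infinite Lucchesi-Younger conjecture (assembly of the LYL modules).
-/

namespace Pool.Agent.LYS

open Pool.Agent.LYL in
/-- the linear case -/
theorem lin_concl (V A : Type) (tail head : A → V) (hW : WC tail head) (hL : Lin tail head) :
    Concl tail head := by
  -- the theorem when every vertex is avoided by some source side
  have step1 : ∀ (V A : Type) (tail head : A → V), WC tail head → Lin tail head →
      (∀ v, ∃ X, Good tail head X ∧ v ∉ X) → Concl tail head := by
    intro V A tail head hW hL hS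
    by_cases hT : ∀ v, ∃ X, Good tail head X ∧ v ∈ X
    · exact two hW hL hT hS
    · push Not at hT
      obtain ⟨t, ht⟩ := hT
      exact ext_concl (t := t) hW ht
        (two (ext_WC hW) (ext_Lin hW hL ht) (fun v => ext_TI v) (fun v => ext_SI ht hS v))
  by_cases hS : ∀ v, ∃ X, Good tail head X ∧ v ∉ X
  · exact step1 V A tail head hW hL hS
  · push Not at hS
    obtain ⟨s, hs⟩ := hS
    have ht : ∀ X, Good head tail X → s ∉ X := by
      intro X hX h
      exact hs Xᶜ hX.rev h
    have h1 : Concl (xt head s) (xh tail) := by
      refine Concl.rev (step1 _ _ _ _ (ext_WC hW.rev).rev (ext_Lin hW.rev hL.rev ht).rev ?_)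
      intro v
      obtain ⟨X, hX, hv⟩ := ext_TI (tail := head) (head := tail) (t := s) v
      exact ⟨Xᶜ, hX.rev, fun h => h hv⟩
    exact (ext_concl (t := s) hW.rev ht h1).rev

end Pool.Agent.LYS
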