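import Pool.Agent.LYS.UCase
import Pool.Agent.LYS.LG

/-!
Regions with only finitely many disjoint sink sides.
-/

namespace Pool.Agent.LYS

open Pool.Agent.LYG (Conn IsComp PairAt HasPair FDicut con fdicut_con glue)

variable {V A : Type} {tail head : A → V}

/-- `Y` is the sink side of a finite dicut. -/
structure Sk (tail head : A → V) (Y : Set V) : Prop where
  closed : ∀ a, tail a ∈ Y → head a ∈ Y
  fin : {a | head a ∈ Y ∧ tail a ∉ Y}.Finite
  ne : {a | head a ∈ Y ∧ tail a ∉ Y}.Nonempty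

theorem Sk.nonempty {Y : Set V} (h : Sk tail head Y) : Y.Nonempty := by
  obtain ⟨a, ha⟩ := h.ne
  exact ⟨_, ha.1⟩

theorem Gd.sk {X : Set V} (h : Gd tail head X) : Sk tail head Xᶜ := by
  have e : {a | head a ∈ Xᶜ ∧ tail a ∉ Xᶜ} = cut tail head X := by
    ext a
    simp only [cut, Set.mem_ofPred_eq, Set.mem_compl_iff, not_not]
    exact and_comm
  exact ⟨fun a h1 h2 => h1 (h.closed a h2), by rw [e]; exact h.fin, by rw [e]; exact h.ne⟩

theorem wc_of_conn (hconn : Conn tail head Set.univ) : ∀ X : Set V, X.Nonempty →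
    Closed tail head X → cut tail head X = ∅ → X = Set.univ := by
  intro X hX hc hd
  apply hconn X (Set.subset_univ X) hX
  intro a _ _
  refine ⟨fun h => ?_, hc a⟩
  by_contra h2
  have : a ∈ cut tail head X := ⟨h, h2⟩
  rw [hd] at this
  exact this

/-- a binary tree of nonempty closed sets with finite cuts inside `K` -/
def Tree (tail head : A → V) (K : Set V) : Prop :=
  ∃ X : List Bool → Set V, (∀ σ, Closed tail head (X σ) ∧ (cut tail head (X σ)).Finite ∧
    (X σ).Nonempty ∧ X σ ⊆ K) ∧ (∀ σ b, X (b :: σ) ⊆ X σ) ∧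
    ∀ σ, Disjoint (X (true :: σ)) (X (false :: σ))

/-- the union case for contractions -/
theorem u_quot [Countable V] (hconn : Conn tail head Set.univ) (K : Set V)
    (hUn : ∀ X Y, Gd tail head X → Gd tail head Y → (Kᶜ ⊆ X ∨ X ⊆ K) → (Kᶜ ⊆ Y ∨ Y ⊆ K) →
      X ∪ Y ≠ Set.univ)
    (hno : ¬ Tree tail head K) : PairAt tail head K := by
  classical
  have hWC := wc_of_conn hconn
  let rel : V → V → Prop := fun u v => u ∉ K ∧ v ∉ K
  let V1 := Quot rel
  let mk : V → V1 := Quot.mk rel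
  have hsurj : Function.Surjective mk := Quot.mk_surjective
  have : Countable V1 := hsurj.countable
  have hpre : ∀ X1 : Set V1, Kᶜ ⊆ mk ⁻¹' X1 ∨ mk ⁻¹' X1 ⊆ K := by
    intro X1
    by_cases h : mk ⁻¹' X1 ⊆ K
    · exact Or.inr h
    · left
      obtain ⟨x, hx1, hx2⟩ := Set.not_subset.1 h
      intro y hy
      have : mk y = mk x := Quot.sound ⟨hy, hx2⟩
      show mk y ∈ X1
      rw [this]
      exact hx1
  have hsat : ∀ X : Set V, (Kᶜ ⊆ X ∨ X ⊆ K) → ∃ X1 : Set V1, X = mk ⁻¹' X1 := by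
    intro X hX
    have h1 : ∀ u v, rel u v → (u ∈ X) = (v ∈ X) := by
      rintro u v ⟨hu, hv⟩
      apply propext
      rcases hX with hX | hX
      · exact ⟨fun _ => hX hv, fun _ => hX hu⟩
      · exact ⟨fun h => absurd (hX h) hu, fun h => absurd (hX h) hv⟩
    exact ⟨{q | Quot.lift (fun v => v ∈ X) h1 q}, rfl⟩
  let tail1 : A → V1 := fun a => mk (tail a)
  let head1 : A → V1 := fun a => mk (head a)
  have hgd : ∀ X1, Gd tail1 head1 X1 → Gd tail head (mk ⁻¹' X1) := by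
    rintro X1 ⟨h1, h2, h3⟩
    exact ⟨h1, h2, h3⟩
  obtain ⟨𝒞, F, k1, k2, k3, k4, k5⟩ := u_case V1 A tail1 head1 (by
      intro X1 hne hc hd
      have h1 : mk ⁻¹' X1 = Set.univ := by
        apply hWC
        · obtain ⟨q, hq⟩ := hne
          obtain ⟨v, rfl⟩ := hsurj q
          exact ⟨v, hq⟩
        · exact hc
        · exact hd
      apply Set.eq_univ_of_forall
      intro q
      obtain ⟨v, rfl⟩ := hsurj q
      have : v ∈ mk ⁻¹' X1 := by rw [h1]; exact Set.mem_univ v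
      exact this) (by
      intro X1 Y1 hX1 hY1 h
      apply hUn _ _ (hgd X1 hX1) (hgd Y1 hY1) (hpre X1) (hpre Y1)
      rw [← Set.preimage_union, h, Set.preimage_univ]) (by
      rintro ⟨X, hX1, hX2, hX3⟩
      apply hno
      -- a subtree inside `K`
      have hpull : ∀ σ, Closed tail head (mk ⁻¹' X σ) ∧ (cut tail head (mk ⁻¹' X σ)).Finite ∧
          (mk ⁻¹' X σ).Nonempty := by
        intro σ
        obtain ⟨h1, h2, q, hq⟩ := hX1 σ
        obtain ⟨v, rfl⟩ := hsurj q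
        exact ⟨h1, h2, v, hq⟩
      have hex : ∃ τ : List Bool, mk ⁻¹' X τ ⊆ K := by
        by_contra hcon
        push Not at hcon
        obtain ⟨x, hx1, hx2⟩ := Set.not_subset.1 (hcon [true])
        obtain ⟨y, hy1, hy2⟩ := Set.not_subset.1 (hcon [false])
        have h1 : mk y = mk x := Quot.sound ⟨hy2, hx2⟩
        have h2 : mk x ∈ X [true] := hx1
        have h3 : mk y ∈ X [false] := hy1
        rw [h1] at h3
        exact Set.disjoint_left.1 (hX3 []) h2 h3
      obtain ⟨τ, hτ⟩ := hex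
      have hmono : ∀ σ, X (σ ++ τ) ⊆ X τ := by
        intro σ
        induction σ with
        | nil => exact subset_rfl
        | cons b σ ih => exact (hX2 (σ ++ τ) b).trans ih
      refine ⟨fun σ => mk ⁻¹' X (σ ++ τ), fun σ => ⟨(hpull _).1, (hpull _).2.1, (hpull _).2.2,
        (Set.preimage_mono (hmono σ)).trans hτ⟩, fun σ b => Set.preimage_mono (hX2 (σ ++ τ) b),
        fun σ => (hX3 (σ ++ τ)).preimage mk⟩)
  refine ⟨𝒞, F, ⟨⟨?_, ?_⟩, k3, k4, ?_⟩⟩
  · intro C hC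
    obtain ⟨X1, hX1, _, h5⟩ := k1 C hC
    have hX := hgd X1 hX1
    have h6 : C = cut tail head (mk ⁻¹' X1) := h5
    rw [fdicut_con]
    refine ⟨?_, ?_, mk ⁻¹' X1, hX.closed, h6, ?_⟩
    · rw [h6]; exact hX.fin
    · rw [h6]; exact hX.ne
    · rcases hpre X1 with h | h
      · exact Or.inl h
      · right
        rw [Set.disjoint_left]
        exact fun x hx hx' => hx (h hx')
  · intro S hS T hT hne
    by_contra h
    obtain ⟨a, ha⟩ := hne
    exact Set.disjoint_left.1 (k2 S hS T hT h) ha.1 ha.2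
  · intro S hS
    obtain ⟨h1, h2, X, h3, h4, h5⟩ := fdicut_con.1 hS
    have h6 : Kᶜ ⊆ X ∨ X ⊆ K := by
      rcases h5 with h5 | h5
      · exact Or.inl h5
      · right
        intro x hx
        by_contra hxK
        exact Set.disjoint_left.1 h5 hxK hx
    obtain ⟨X1, rfl⟩ := hsat X h6
    have h7 : S = cut tail1 head1 X1 := h4
    have := k5 X1 ⟨h3, by rw [← h7]; exact h1, by rw [← h7]; exact h2⟩ trivial
    rw [← h7] at this
    exact this

/-- no infinite sequence of disjoint sink sides inside `K` -/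
def FewSinks (tail head : A → V) (K : Set V) : Prop :=
  ¬ ∃ Y : ℕ → Set V, (∀ n, Sk tail head (Y n) ∧ Y n ⊆ K) ∧ ∀ m n, m ≠ n → Disjoint (Y m) (Y n)

/-- sink sides without two disjoint sink sides inside -/
def Atomic (tail head : A → V) (Y : Set V) : Prop :=
  Sk tail head Y ∧ ∀ Z Z', Sk tail head Z → Sk tail head Z' → Z ⊆ Y → Z' ⊆ Y → ¬ Disjoint Z Z'

theorem exists_atomic {K : Set V} (hK : FewSinks tail head K) {Y : Set V} (hY : Sk tail head Y)
    (hYK : Y ⊆ K) : ∃ Z, Atomic tail head Z ∧ Z ⊆ Y := by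
  classical
  by_contra hcon
  push Not at hcon
  let T := {Z : Set V // Sk tail head Z ∧ Z ⊆ Y}
  have hsplit : ∀ Z : T, ∃ P : T × T, P.1.1 ⊆ Z.1 ∧ P.2.1 ⊆ Z.1 ∧ Disjoint P.1.1 P.2.1 := by
    intro Z
    by_contra h
    push Not at h
    apply hcon Z.1 ⟨Z.2.1, ?_⟩ Z.2.2
    intro P Q hP hQ hPZ hQZ
    exact h ⟨⟨P, hP, hPZ.trans Z.2.2⟩, ⟨Q, hQ, hQZ.trans Z.2.2⟩⟩ hPZ hQZ
  choose f hf1 hf2 hf3 using hsplit
  let s : ℕ → T := fun n => Nat.rec ⟨Y, hY, subset_rfl⟩ (fun _ Z => (f Z).2) n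
  have hs : ∀ n, s (n + 1) = (f (s n)).2 := fun n => rfl
  have hanti : ∀ m n, m ≤ n → (s n).1 ⊆ (s m).1 := by
    intro m n h
    induction h with
    | refl => exact subset_rfl
    | step _ ih =>
      rw [hs]
      exact (hf2 _).trans ih
  have hlt : ∀ m n, m < n → Disjoint (f (s m)).1.1 (f (s n)).1.1 := by
    intro m n h
    have h1 : (f (s n)).1.1 ⊆ (f (s m)).2.1 := by
      refine (hf1 (s n)).trans ?_
      rw [← hs m]
      exact hanti _ _ h
    exact (hf3 (s m)).mono_right h1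
  apply hK
  refine ⟨fun n => (f (s n)).1.1, fun n => ⟨(f (s n)).1.2.1, (f (s n)).1.2.2.trans hYK⟩, ?_⟩
  intro m n hne
  rcases lt_or_gt_of_ne hne with h | h
  · exact hlt m n h
  · exact (hlt n m h).symm

theorem exists_family {K : Set V} (hK : FewSinks tail head K) :
    ∃ 𝒴 : Set (Set V), 𝒴.Finite ∧ (∀ Y ∈ 𝒴, Atomic tail head Y ∧ Y ⊆ K) ∧
      ∀ Z, Atomic tail head Z → Z ⊆ K → ∃ Y ∈ 𝒴, ¬ Disjoint Z Y := by
  classical
  obtain ⟨𝒴, h𝒴⟩ := zorn_subset {𝒴 : Set (Set V) | (∀ Y ∈ 𝒴, Atomic tail head Y ∧ Y ⊆ K) ∧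
    ∀ Y ∈ 𝒴, ∀ Z ∈ 𝒴, Y ≠ Z → Disjoint Y Z} (by
      intro c hc hch
      refine ⟨⋃₀ c, ⟨?_, ?_⟩, fun s hs => Set.subset_sUnion_of_mem hs⟩
      · rintro Y ⟨s, hs, hY⟩
        exact (hc hs).1 Y hY
      · rintro Y ⟨s, hs, hY⟩ Z ⟨s', hs', hZ⟩ hne
        rcases hch.total hs hs' with h | h
        · exact (hc hs').2 Y (h hY) Z hZ hne
        · exact (hc hs).2 Y hY Z (h hZ) hne)
  have hprop := h𝒴.prop
  refine ⟨𝒴, ?_, hprop.1, ?_⟩
  · by_contra hinf
    obtain ⟨f⟩ : Nonempty (ℕ ↪ 𝒴) := by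
      have : Infinite 𝒴 := Set.infinite_coe_iff.2 hinf
      exact ⟨Infinite.natEmbedding 𝒴⟩
    apply hK
    refine ⟨fun n => (f n).1, fun n => ⟨(hprop.1 _ (f n).2).1.1, (hprop.1 _ (f n).2).2⟩, ?_⟩
    intro m n hne
    exact hprop.2 _ (f m).2 _ (f n).2 fun h => hne (f.injective (Subtype.ext h))
  · intro Z hZ hZK
    by_contra hcon
    push Not at hcon
    have h1 : insert Z 𝒴 ∈ {𝒴 : Set (Set V) | (∀ Y ∈ 𝒴, Atomic tail head Y ∧ Y ⊆ K) ∧
        ∀ Y ∈ 𝒴, ∀ Z ∈ 𝒴, Y ≠ Z → Disjoint Y Z} := by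
      constructor
      · rintro Y (rfl | hY)
        · exact ⟨hZ, hZK⟩
        · exact hprop.1 Y hY
      · rintro Y (rfl | hY) Y' (rfl | hY') hne
        · exact absurd rfl hne
        · exact hcon Y' hY'
        · exact (hcon Y hY).symm
        · exact hprop.2 Y hY Y' hY' hne
    have h2 : insert Z 𝒴 ⊆ 𝒴 := h𝒴.le_of_ge h1 (Set.subset_insert Z 𝒴)
    have h3 := hcon Z (h2 (Set.mem_insert Z 𝒴))
    obtain ⟨z, hz⟩ := hZ.1.nonempty
    exact Set.disjoint_left.1 h3 hz hz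

/-- regions with few sinks and no tree of source sides -/
theorem pairAt_few [Countable V] (hconn : Conn tail head Set.univ) (K : Set V)
    (hK : FewSinks tail head K) (hno : ¬ Tree tail head K) : PairAt tail head K := by
  classical
  have hWC := wc_of_conn hconn
  obtain ⟨𝒴, hfin, h𝒴1, h𝒴2⟩ := exists_family hK
  let E : Set A := ⋃ Y ∈ 𝒴, {a | head a ∈ Y ∧ tail a ∉ Y}
  have hE : E.Finite := hfin.biUnion fun Y hY => (h𝒴1 Y hY).1.1.fin
  let S : Set V := tail '' E ∪ head '' E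
  have hS : S.Finite := (hE.image _).union (hE.image _)
  apply glue hconn hS
  intro K' hK'
  -- position of `K'` relative to the members
  have hpos : ∀ Y ∈ 𝒴, ∀ z ∈ K', z ∈ Y → K' ⊆ Y := by
    intro Y hY z hz hzY
    have h1 : K' ∩ Y = K' := by
      apply hK'.conn _ Set.inter_subset_left ⟨z, hz, hzY⟩
      intro a ha1 ha2
      constructor
      · rintro ⟨_, h⟩
        exact ⟨ha2, (h𝒴1 Y hY).1.1.closed a h⟩
      · rintro ⟨_, h⟩
        refine ⟨ha1, ?_⟩
        by_contra h2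
        have h3 : a ∈ E := Set.mem_biUnion hY ⟨h, h2⟩
        exact (hK'.sub ha1).2 (Or.inl ⟨a, h3, rfl⟩)
    rw [← h1]
    exact Set.inter_subset_right
  -- a sink side inside `K'` gives a member around `K'`
  have hat : ∀ Y, Sk tail head Y → Y ⊆ K' → ∃ Y0 ∈ 𝒴, K' ⊆ Y0 := by
    intro Y hY hYK'
    have hYK : Y ⊆ K := fun y hy => (hK'.sub (hYK' hy)).1
    obtain ⟨Z, hZ1, hZ2⟩ := exists_atomic hK hY hYK
    obtain ⟨Y0, hY0, hne⟩ := h𝒴2 Z hZ1 (hZ2.trans hYK)
    obtain ⟨z, hz1, hz2⟩ := Set.not_disjoint_iff.1 hne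
    exact ⟨Y0, hY0, hpos Y0 hY0 z (hYK' (hZ2 hz1)) hz2⟩
  have hmix : ∀ X X', Gd tail head X → Gd tail head X' → X ⊆ K' → K'ᶜ ⊆ X' →
      X ∪ X' = Set.univ → False := by
    intro X X' hX hX' hXK hX'K hU
    have hY' := hX'.sk
    have hY'K : X'ᶜ ⊆ K' := by
      intro y hy
      by_contra h
      exact hy (hX'K h)
    obtain ⟨Y0, hY0, hsub⟩ := hat _ hY' hY'K
    have hY'X : X'ᶜ ⊆ X := by
      intro y hy
      have : y ∈ X ∪ X' := by rw [hU]; exact Set.mem_univ y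
      exact this.resolve_right hy
    have hY0s := (h𝒴1 Y0 hY0).1
    have hW : Sk tail head (Y0 \ X) := by
      have hc : ∀ a, tail a ∈ Y0 \ X → head a ∈ Y0 \ X := fun a h =>
        ⟨hY0s.1.closed a h.1, fun h' => h.2 (hX.closed a h')⟩
      refine ⟨hc, ?_, ?_⟩
      · apply (hY0s.1.fin.union hX.fin).subset
        rintro a ⟨h1, h2⟩
        by_cases h3 : tail a ∈ Y0
        · right
          refine ⟨?_, h1.2⟩
          by_contra h4
          exact h2 ⟨h3, h4⟩
        · exact Or.inl ⟨h1.1, h3⟩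
      · by_contra hcon
        rw [Set.not_nonempty_iff_eq_empty] at hcon
        obtain ⟨y', hy'⟩ := hY'.nonempty
        have h1 : (Y0 \ X)ᶜ = Set.univ := by
          apply hWC _ ⟨y', fun h => h.2 (hY'X hy')⟩
          · intro a ha h
            exact ha (hc a h)
          · ext a
            simp only [cut, Set.mem_ofPred_eq, Set.mem_empty_iff_false, iff_false, not_and, not_not,
              Set.mem_compl_iff]
            intro h2 h3
            have : a ∈ {a | head a ∈ Y0 \ X ∧ tail a ∉ Y0 \ X} := ⟨h3, h2⟩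
            rw [hcon] at this
            exact this
        rw [Set.compl_univ_iff] at h1
        -- `Y0 ⊆ X`
        obtain ⟨b, hb⟩ := hX.ne
        have h2 : Y0 ⊆ X := Set.sdiff_eq_empty.1 h1
        exact hb.2 (h2 (hY0s.1.closed b (hsub (hXK hb.1))))
    exact hY0s.2 _ _ hW hY' Set.sdiff_subset (hY'K.trans hsub)
      (Set.disjoint_left.2 fun z h1 h2 => h1.2 (hY'X h2))
  apply u_quot hconn K'
  · intro X X' hX hX' h1 h2 hU
    rcases h1 with h1 | h1 <;> rcases h2 with h2 | h2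
    · have hYs : ∀ X, Gd tail head X → K'ᶜ ⊆ X → Xᶜ ⊆ K' := by
        intro X _ h y hy
        by_contra h3
        exact hy (h h3)
      obtain ⟨Y0, hY0, hsub⟩ := hat _ hX.sk (hYs X hX h1)
      exact (h𝒴1 Y0 hY0).1.2 _ _ hX.sk hX'.sk ((hYs X hX h1).trans hsub)
        ((hYs X' hX' h2).trans hsub) (Set.disjoint_left.2 fun z k1 k2 => by
          have : z ∈ X ∪ X' := by rw [hU]; exact Set.mem_univ z
          exact this.elim k1 k2)
    · exact hmix X' X hX' hX h2 h1 (by rw [Set.union_comm]; exact hU)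
    · exact hmix X X' hX hX' h1 h2 hU
    · have h3 : K' = Set.univ := by
        apply Set.eq_univ_of_forall
        intro z
        have : z ∈ X ∪ X' := by rw [hU]; exact Set.mem_univ z
        exact this.elim (fun h => h1 h) (fun h => h2 h)
      have h4 := hX.sk
      obtain ⟨Y0, hY0, hsub⟩ := hat _ h4 (by rw [h3]; exact Set.subset_univ _)
      obtain ⟨a, ha⟩ := (h𝒴1 Y0 hY0).1.1.ne
      have h5 : tail a ∈ K' := by rw [h3]; exact Set.mem_univ _
      exact ha.2 (hsub h5)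
  · rintro ⟨X, hX1, hX2, hX3⟩
    apply hno
    exact ⟨X, fun σ => ⟨(hX1 σ).1, (hX1 σ).2.1, (hX1 σ).2.2.1,
      (hX1 σ).2.2.2.trans fun x hx => (hK'.sub hx).1⟩, hX2, hX3⟩

end Pool.Agent.LYS
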