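import Pool.Agent.LYS.AdmU
import Pool.Agent.LYS.Lin

/-!
The theorem for weakly connected countable digraphs in which no two source sides cover `V` and
which have no Cantor scheme of source sides.
-/

namespace Pool.Agent.LYS

/-- a binary tree of nonempty closed sets with finite cuts: sets below `X σ` are subsets of it and
the two successors of a node are disjoint -/
def Cantor {V A : Type*} (tail head : A → V) : Prop :=
  ∃ X : List Bool → Set V, (∀ σ, Closed tail head (X σ) ∧ (cut tail head (X σ)).Finite ∧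
    (X σ).Nonempty) ∧ (∀ σ b, X (b :: σ) ⊆ X σ) ∧ ∀ σ, Disjoint (X (true :: σ)) (X (false :: σ))

theorem exists_iso {V A : Type*} {tail head : A → V} {t : V} (hno : ¬ Cantor tail head)
    {S : Set (Set V)}
    (hY : ∃ Y, Untouched tail head t S Y ∧ Y.Nonempty) : ∃ B, Iso tail head t S B := by
  classical
  by_contra hcon
  push Not at hcon
  let T := {B : Set V // Untouched tail head t S B ∧ B.Nonempty}
  have hsplit : ∀ B : T, ∃ X Y : T, X.1 ⊆ B.1 ∧ Y.1 ⊆ B.1 ∧ Disjoint X.1 Y.1 := by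
    intro B
    by_contra hB
    push Not at hB
    apply hcon B.1
    refine ⟨B.2.1, B.2.2, ?_⟩
    intro X Y hX hY hXne hYne hXB hYB
    by_contra hne
    exact hB ⟨X, hX, hXne⟩ ⟨Y, hY, hYne⟩ hXB hYB
      (Set.disjoint_iff_inter_eq_empty.2 (Set.not_nonempty_iff_eq_empty.1 hne))
  choose f g hf hg hfg using hsplit
  obtain ⟨Y, hY, hYne⟩ := hY
  let X : List Bool → T := fun σ => List.rec (motive := fun _ => T) ⟨Y, hY, hYne⟩
    (fun b _ B => if b then f B else g B) σ
  have hX : ∀ σ b, X (b :: σ) = if b then f (X σ) else g (X σ) := fun σ b => rfl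
  apply hno
  refine ⟨fun σ => (X σ).1, fun σ => ⟨(X σ).2.1.1.closed, (X σ).2.1.1.fin, (X σ).2.2⟩, ?_, ?_⟩
  · intro σ b
    show (X (b :: σ)).1 ⊆ (X σ).1
    rw [hX]
    cases b
    · exact hg (X σ)
    · exact hf (X σ)
  · intro σ
    show Disjoint (X (true :: σ)).1 (X (false :: σ)).1
    rw [hX, hX]
    exact hfg (X σ)

/-- the union case -/
theorem u_case (V A : Type) (tail head : A → V) [Countable V]
    (hWC : ∀ X : Set V, X.Nonempty → Closed tail head X → cut tail head X = ∅ → X = Set.univ)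
    (hUn : ∀ X Y, Gd tail head X → Gd tail head Y → X ∪ Y ≠ Set.univ)
    (hno : ¬ Cantor tail head) : ∃ 𝒞 F, ConclOn tail head (fun _ => True) 𝒞 F := by
  classical
  rcases isEmpty_or_nonempty V with hV | ⟨⟨t⟩⟩
  · refine ⟨∅, ∅, by simp, by simp, by simp, by simp, ?_⟩
    intro X hX _
    obtain ⟨a, _⟩ := hX.ne
    exact (hV.false (tail a)).elim
  have hroot := fun v => exists_steps hWC t v
  obtain ⟨S, hS, hcomp⟩ := exists_scheme (tail := tail) (head := head) (t := t) (by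
    intro S _ hY
    obtain ⟨B, hB⟩ := exists_iso hno hY
    obtain ⟨g, hg⟩ := exists_bus hroot hB
    exact ⟨B, g, hB, hg⟩)
  -- the contraction of the cuts of the members
  let rel : V → V → Prop := fun u v => ∃ a, (∃ P ∈ S, a ∈ cut tail head P) ∧ tail a = u ∧ head a = v
  let V1 := Quot rel
  let mk : V → V1 := Quot.mk rel
  have hmk : ∀ a, (∃ P ∈ S, a ∈ cut tail head P) → mk (tail a) = mk (head a) := by
    intro a ha
    exact Quot.sound ⟨a, ha, rfl, rfl⟩
  have hunt : ∀ X1 : Set V1, ∀ P ∈ S, ¬ Touch tail head P (mk ⁻¹' X1) := by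
    rintro X1 P hP ⟨a, h1, h2⟩
    have h3 : mk (tail a) ∈ X1 := h2.1
    have h4 : mk (head a) ∉ X1 := h2.2
    rw [hmk a ⟨P, hP, h1⟩] at h3
    exact h4 h3
  have hsat : ∀ X : Set V, Closed tail head X → (∀ P ∈ S, ¬ Touch tail head P X) →
      ∃ X1 : Set V1, X = mk ⁻¹' X1 := by
    intro X hX hXu
    have h1 : ∀ u v, rel u v → (u ∈ X) = (v ∈ X) := by
      rintro u v ⟨a, ⟨P, hP, ha⟩, rfl, rfl⟩
      apply propext
      constructor
      · intro h
        by_contra h'
        exact hXu P hP ⟨a, ha, h, h'⟩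
      · exact hX a
    exact ⟨{q | Quot.lift (fun v => v ∈ X) h1 q}, rfl⟩
  have hsurj : Function.Surjective mk := Quot.mk_surjective
  let tail1 : A → V1 := fun a => mk (tail a)
  let head1 : A → V1 := fun a => mk (head a)
  have hW1 : LYL.WC tail1 head1 := by
    intro X1 hne hc hd
    have h1 : mk ⁻¹' X1 = Set.univ := by
      apply hWC
      · obtain ⟨q, hq⟩ := hne
        obtain ⟨v, rfl⟩ := hsurj q
        exact ⟨v, hq⟩
      · exact hc
      · exact hd
    apply Set.eq_univ_of_forall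
    intro q
    obtain ⟨v, rfl⟩ := hsurj q
    have : v ∈ mk ⁻¹' X1 := by rw [h1]; exact Set.mem_univ v
    exact this
  have hgd : ∀ X1, LYL.Good tail1 head1 X1 → Gd tail head (mk ⁻¹' X1) := by
    rintro X1 ⟨h1, h2, h3⟩
    exact ⟨h1, h2, h3⟩
  have ht : ∀ X, Gd tail head X → (∀ P ∈ S, ¬ Touch tail head P X) → t ∈ X := by
    intro X hX hXu
    by_contra ht
    obtain ⟨a, ha⟩ := hX.ne
    obtain ⟨P, hP, hPX⟩ := hcomp X ⟨hX.closed, ht, hX.fin⟩ ⟨tail a, ha.1⟩
    exact hXu P hP hPX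
  have hL1 : LYL.Lin tail1 head1 := by
    intro X1 Y1 hX1 hY1
    constructor
    · exact ⟨mk t, ht _ (hgd X1 hX1) (hunt X1), ht _ (hgd Y1 hY1) (hunt Y1)⟩
    · intro h
      apply hUn _ _ (hgd X1 hX1) (hgd Y1 hY1)
      rw [← Set.preimage_union, h, Set.preimage_univ]
  obtain ⟨𝒞, F, k1, k2, k3, k4, k5⟩ := lin_concl V1 A tail1 head1 hW1 hL1
  apply concl_of_scheme (𝒞 := 𝒞) (F := F) hWC hUn hS hcomp
  refine ⟨?_, k2, k3, k4, ?_⟩
  · intro C hC
    obtain ⟨h1, h2, X1, h3, h4⟩ := k1 C hC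
    have h5 : C = cut tail head (mk ⁻¹' X1) := h4
    refine ⟨mk ⁻¹' X1, ⟨h3, ?_, ?_⟩, hunt X1, h5⟩
    · rw [← h5]; exact h1
    · rw [← h5]; exact h2
  · intro X hX hXu
    obtain ⟨X1, rfl⟩ := hsat X hX.closed hXu
    exact k5 _ hX.fin hX.ne ⟨X1, hX.closed, rfl⟩

end Pool.Agent.LYS
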